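import Mathlib

/-!
Definitions for MP_6eef91_an (multidimensional avoshifts), following the problem file.
-/

set_option autoImplicit false

namespace Pool.Agent.Work.MP_6eef91_an

/-- Configurations on `ℤ^d` over the alphabet `A`. -/
abbrev Config (d : ℕ) (A : Type) : Type := (Fin d → ℤ) → A

/-- The shift `σ_u`, `(σ_u x)_v = x_{v-u}`. -/
def shift {d : ℕ} {A : Type} (u : Fin d → ℤ) (x : Config d A) : Config d A :=
  fun v => x (v - u)

/-- A subshift: a closed shift-invariant set of configurations (product topology). -/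
def IsSubshift {d : ℕ} {A : Type} [TopologicalSpace A] (X : Set (Config d A)) : Prop :=
  IsClosed X ∧ ∀ u : Fin d → ℤ, ∀ x ∈ X, shift u x ∈ X

/-- The point of `ℝ^d` given by a point of `ℤ^d`. -/
def toReal {d : ℕ} (v : Fin d → ℤ) : Fin d → ℝ := fun i => (v i : ℝ)

/-- A subset `C` of `ℤ^d`, finite or infinite, is convex if it contains every integer point of its
real convex hull. -/
def IsConvexSet {d : ℕ} (C : Set (Fin d → ℤ)) : Prop :=
  ∀ v : Fin d → ℤ, toReal v ∈ convexHull ℝ (toReal '' C) → v ∈ C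

/-- `F_X(x|_S, v)`: the symbols `a` such that `x|_S` together with `v ↦ a` is globally valid. -/
def followers {d : ℕ} {A : Type} (X : Set (Config d A)) (x : Config d A) (S : Set (Fin d → ℤ))
    (v : Fin d → ℤ) : Set A :=
  {a | ∃ y ∈ X, (∀ s ∈ S, y s = x s) ∧ y v = a}

/-- An avoshift: for every convex `C` and `v ∉ C` with `C ∪ {v}` convex there is a finite `D ⊆ C`
with `F_X(x|_C, v) = F_X(x|_D, v)` for all `x ∈ X`. -/
def IsAvoshift {d : ℕ} {A : Type} [TopologicalSpace A] (X : Set (Config d A)) : Prop :=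
  IsSubshift X ∧ ∀ (C : Set (Fin d → ℤ)) (v : Fin d → ℤ), IsConvexSet C → v ∉ C →
    IsConvexSet (insert v C) → ∃ D : Set (Fin d → ℤ), D.Finite ∧ D ⊆ C ∧
      ∀ x ∈ X, followers X x C v = followers X x D v

/-- The patterns of `X` on the cube `[0, N-1]^d`. -/
def cubePatterns {d : ℕ} {A : Type} (X : Set (Config d A)) (N : ℕ) :
    Set ((Fin d → Fin N) → A) :=
  {p | ∃ x ∈ X, ∀ v : Fin d → Fin N, p v = x (fun i => ((v i : ℕ) : ℤ))}

/-- `X` has topological entropy `h`: `N^{-d} log |{x|_{[0,N-1]^d} : x ∈ X}| → h`. -/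
def HasEntropy {d : ℕ} {A : Type} (X : Set (Config d A)) (h : ℝ) : Prop :=
  Filter.Tendsto (fun N : ℕ => Real.log ((cubePatterns X N).ncard : ℝ) / (N : ℝ) ^ d)
    Filter.atTop (nhds h)

/-- A factor map from `X` onto the `n`-symbol full shift on `ℤ^d`: a continuous, shift-commuting
surjection. -/
def IsFactorMapOntoFullShift {d : ℕ} {A : Type} [TopologicalSpace A] (X : Set (Config d A))
    (n : ℕ) (π : X → Config d (Fin n)) : Prop :=
  Continuous π ∧ Function.Surjective π ∧
    ∀ (u : Fin d → ℤ) (x : X) (hx : shift u x.1 ∈ X), π ⟨shift u x.1, hx⟩ = shift u (π x)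

end Pool.Agent.Work.MP_6eef91_an
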