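import Mathlib

set_option autoImplicit false

namespace Pool.Agent.Work.MP_6eef91_an

open Finset

/-- Counting: a surjective block code whose inner parts are local either is balanced on some block
or loses a point on every block. -/
lemma abstract_blocks {T I V A : Type} [Fintype T] [Fintype I] [Fintype V] [Fintype A]
    {Ω : T → Type} [∀ t, Fintype (Ω t)] [∀ t, Nonempty (Ω t)]
    (ι : T × I → V) (hι : Function.Injective ι) (F : (∀ t, Ω t) → (V → A))
    (hloc : ∀ (z z' : ∀ t, Ω t) (t : T) (i : I), z t = z' t → F z (ι (t, i)) = F z' (ι (t, i)))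
    (hs : Function.Surjective F) :
    (∃ t, Fintype.card A ^ Fintype.card I ∣ Fintype.card (Ω t)) ∨
      Fintype.card A ^ Fintype.card V ≤ ∏ t, (Fintype.card (Ω t) - 1) := by
  classical
  by_contra hcon
  rw [not_or, not_exists, not_le] at hcon
  obtain ⟨h1, h2⟩ := hcon
  set z0 : ∀ t, Ω t := fun t => Classical.arbitrary _ with hz0
  set f : ∀ t, Ω t → (I → A) := fun t ω i => F (Function.update z0 t ω) (ι (t, i)) with hf
  have hfF : ∀ (z : ∀ t, Ω t) (t : T) (i : I), F z (ι (t, i)) = f t (z t) i := by
    intro z t i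
    apply hloc
    simp
  have hbad : ∀ t, ∃ p : I → A, Fintype.card A ^ Fintype.card I *
      (univ.filter fun ω => f t ω = p).card ≤ Fintype.card (Ω t) - 1 := by
    intro t
    by_contra hc
    push Not at hc
    apply h1 t
    have hpos : 0 < Fintype.card (Ω t) := Fintype.card_pos
    have hsum : Fintype.card (Ω t) = ∑ p : I → A, (univ.filter fun ω => f t ω = p).card := by
      have := Finset.card_eq_sum_card_fiberwise (f := f t) (s := univ) (t := univ)
        (by intro x _; simp)
      rw [← card_univ]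
      exact this
    have hge : ∀ p ∈ (univ : Finset (I → A)), Fintype.card (Ω t) ≤
        Fintype.card A ^ Fintype.card I * (univ.filter fun ω => f t ω = p).card := by
      intro p _
      have := hc p
      omega
    have heq : ∑ _p : I → A, Fintype.card (Ω t) =
        ∑ p : I → A, Fintype.card A ^ Fintype.card I * (univ.filter fun ω => f t ω = p).card := by
      rw [← mul_sum, ← hsum, sum_const, card_univ, Fintype.card_fun, smul_eq_mul]
    have hall := (Finset.sum_eq_sum_iff_of_le hge).mp heq
    have hp := hall (f t (z0 t)) (mem_univ _)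
    exact ⟨_, hp⟩
  choose p hp using hbad
  set P : ({v : V // ¬ ∃ a, ι a = v} → A) → V → A := fun ρ v =>
    if h : ∃ a, ι a = v then p (Classical.choose h).1 (Classical.choose h).2 else ρ ⟨v, h⟩ with hP
  have hPι : ∀ ρ t i, P ρ (ι (t, i)) = p t i := by
    intro ρ t i
    have h : ∃ a, ι a = ι (t, i) := ⟨_, rfl⟩
    have hc : Classical.choose h = (t, i) := hι (Classical.choose_spec h)
    simp only [hP, dif_pos h, hc]
  have hPn : ∀ ρ (v : {v : V // ¬ ∃ a, ι a = v}), P ρ v.1 = ρ v := by
    intro ρ v
    simp only [hP, dif_neg v.2]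
  choose z hz using fun ρ => hs (P ρ)
  have hzt : ∀ ρ t, f t (z ρ t) = p t := by
    intro ρ t
    funext i
    rw [← hfF, hz, hPι]
  set G : ({v : V // ¬ ∃ a, ι a = v} → A) → ∀ t, {ω // f t ω = p t} :=
    fun ρ t => ⟨z ρ t, hzt ρ t⟩ with hG
  have hGinj : Function.Injective G := by
    intro ρ ρ' h
    have h3 : z ρ = z ρ' := by
      funext t
      have := congrFun h t
      simp only [hG, Subtype.mk.injEq] at this
      exact this
    have h4 : P ρ = P ρ' := by rw [← hz, ← hz, h3]
    funext v
    rw [← hPn ρ v, ← hPn ρ' v, h4]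
  have hcard := Fintype.card_le_of_injective G hGinj
  rw [Fintype.card_fun, Fintype.card_pi] at hcard
  have hcard2 : ∀ t, Fintype.card {ω // f t ω = p t} = (univ.filter fun ω => f t ω = p t).card :=
    fun t => Fintype.card_subtype _
  have hV : Fintype.card V = Fintype.card {v : V // ¬ ∃ a, ι a = v} +
      Fintype.card T * Fintype.card I := by
    have e1 : Fintype.card {v : V // ∃ a, ι a = v} = Fintype.card (T × I) := by
      have := Set.card_range_of_injective hι
      rw [← this]
      exact Fintype.card_congr (Equiv.refl _)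
    have e2 := Fintype.card_subtype_compl (fun v : V => ∃ a, ι a = v)
    have e3 := Fintype.card_subtype_le (fun v : V => ∃ a, ι a = v)
    rw [Fintype.card_prod] at e1
    omega
  have hfin : Fintype.card A ^ Fintype.card V ≤ ∏ t, (Fintype.card (Ω t) - 1) := by
    calc Fintype.card A ^ Fintype.card V
        = Fintype.card A ^ Fintype.card {v : V // ¬ ∃ a, ι a = v} *
          ∏ _t : T, Fintype.card A ^ Fintype.card I := by
          rw [hV, pow_add, prod_const, card_univ, ← pow_mul, mul_comm (Fintype.card T)]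
      _ ≤ (∏ t, (univ.filter fun ω => f t ω = p t).card) *
          ∏ _t : T, Fintype.card A ^ Fintype.card I := by
          apply Nat.mul_le_mul_right
          refine hcard.trans (le_of_eq ?_)
          exact prod_congr rfl fun t _ => hcard2 t
      _ = ∏ t, (Fintype.card A ^ Fintype.card I * (univ.filter fun ω => f t ω = p t).card) := by
          rw [← prod_mul_distrib]
          exact prod_congr rfl fun t _ => mul_comm _ _
      _ ≤ _ := prod_le_prod' fun t _ => hp t
  omega

lemma pow_add_le (a b d : ℕ) : (a + b) ^ (d + 1) ≤ a ^ (d + 1) + (d + 1) * b * (a + b) ^ d := by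
  induction d with
  | zero => simp
  | succ d ih =>
    have h1 : a ^ (d + 1) ≤ (a + b) ^ (d + 1) := Nat.pow_le_pow_left (Nat.le_add_right a b) _
    calc (a + b) ^ (d + 1 + 1) = (a + b) * (a + b) ^ (d + 1) := by ring
      _ ≤ (a + b) * (a ^ (d + 1) + (d + 1) * b * (a + b) ^ d) := Nat.mul_le_mul_left _ ih
      _ = a ^ (d + 1 + 1) + b * a ^ (d + 1) + (d + 1) * b * (a + b) ^ (d + 1) := by ring
      _ ≤ a ^ (d + 1 + 1) + b * (a + b) ^ (d + 1) + (d + 1) * b * (a + b) ^ (d + 1) := by gcongr
      _ = _ := by ring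

lemma exists_q (κ M : ℕ) (hM : 1 ≤ M) : ∃ q, κ * (M - 1) ^ q < M ^ q := by
  rcases Nat.eq_zero_or_pos κ with rfl | hκ
  · exact ⟨0, by simp⟩
  have hM' : (0:ℝ) < M := by exact_mod_cast hM
  have hκ' : (0:ℝ) < κ := by exact_mod_cast hκ
  obtain ⟨q, hq⟩ := exists_pow_lt_of_lt_one (show (0:ℝ) < 1 / κ by positivity)
    (show ((M:ℝ) - 1) / M < 1 by rw [div_lt_one hM']; linarith)
  refine ⟨q, ?_⟩
  have h : ((κ * (M - 1) ^ q : ℕ) : ℝ) < ((M ^ q : ℕ) : ℝ) := by
    push_cast [Nat.cast_sub hM]
    rw [div_pow, div_lt_div_iff₀ (by positivity) hκ'] at hq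
    linarith
  exact_mod_cast h

/-- Losing a point on every block costs an exponential factor. -/
lemma prod_sub_one {T : Type} [Fintype T] (a : T → ℕ) (M : ℕ) (h1 : ∀ t, 1 ≤ a t)
    (hM : ∀ t, a t ≤ M) :
    (∏ t, (a t - 1)) * M ^ Fintype.card T ≤ (∏ t, a t) * (M - 1) ^ Fintype.card T := by
  have e1 : M ^ Fintype.card T = ∏ _t : T, M := by rw [prod_const, card_univ]
  have e2 : (M - 1) ^ Fintype.card T = ∏ _t : T, (M - 1) := by rw [prod_const, card_univ]
  rw [e1, e2, ← prod_mul_distrib, ← prod_mul_distrib]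
  refine prod_le_prod' fun t _ => ?_
  have h := h1 t
  have h' := hM t
  obtain ⟨b, hb⟩ := Nat.exists_eq_add_of_le h
  obtain ⟨c, hc⟩ := Nat.exists_eq_add_of_le (h.trans h')
  rw [hb, hc, Nat.add_sub_cancel_left, Nat.add_sub_cancel_left]
  nlinarith

end Pool.Agent.Work.MP_6eef91_an
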