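import Mathlib
import Pool.Agent.Work.MP_6eef91_an.Defs

set_option autoImplicit false

namespace Pool.Agent.Work.MP_6eef91_an

open Finset

/-- A cell of the environment: a digit in `{1,…,6}` (stored as `Fin 6`) and a carry in
`{0,1,2}`. -/
abbrev Cell : Type := Fin 6 × Fin 3

/-- A window: the type of the row, the cell, its right and its upper neighbour. -/
abbrev Win : Type := Bool × Cell × Cell × Cell

/-- The digit of a cell. -/
def dig (c : Cell) : ℤ := ((c.1 : ℕ) : ℤ) + 1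

/-- The carry of a cell. -/
def car (c : Cell) : ℤ := ((c.2 : ℕ) : ℤ)

/-- The local rule: rows of type `true` divide by `3`, rows of type `false` multiply by `2`. -/
def Rel (w : Win) : Prop :=
  if w.1 then 3 * dig w.2.2.2 + car w.2.2.1 = dig w.2.1 + car w.2.1
  else dig w.2.2.2 + car w.2.2.1 = 2 * dig w.2.1 + car w.2.1

instance : DecidablePred Rel := fun w => by unfold Rel; infer_instance

/-- The number of choices at a site with window `w`. -/
def nc (n : ℕ) (w : Win) : ℕ := if Rel w then (if w.1 then 3 * n else n / 2) else 1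

/-- An environment. -/
structure Env where
  /-- types of the rows -/
  ty : ℤ → Bool
  /-- cells -/
  cell : ℤ → ℤ → Cell

/-- The window of the environment at `(i,j)`. -/
def Env.win (E : Env) (i j : ℤ) : Win := (E.ty j, E.cell i j, E.cell (i + 1) j, E.cell i (j + 1))

lemma dig_pos (c : Cell) : 1 ≤ dig c := by unfold dig; omega

lemma dig_le (c : Cell) : dig c ≤ 6 := by
  have := c.1.2
  unfold dig; omega

lemma car_nonneg (c : Cell) : 0 ≤ car c := by unfold car; omega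

lemma car_le (c : Cell) : car c ≤ 2 := by
  have := c.2.2
  unfold car; omega

/-- Row sums. -/
def rowSum (E : Env) (i₀ : ℤ) (L : ℕ) (j : ℤ) : ℤ := ∑ i ∈ range L, dig (E.cell (i₀ + i) j)

lemma le_rowSum (E : Env) (i₀ : ℤ) (L : ℕ) (j : ℤ) : (L : ℤ) ≤ rowSum E i₀ L j := by
  unfold rowSum
  calc (L : ℤ) = ∑ i ∈ range L, 1 := by simp
    _ ≤ _ := sum_le_sum fun i _ => dig_pos _

lemma rowSum_le (E : Env) (i₀ : ℤ) (L : ℕ) (j : ℤ) : rowSum E i₀ L j ≤ 6 * L := by
  unfold rowSum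
  calc ∑ i ∈ range L, dig (E.cell (i₀ + i) j) ≤ ∑ _i ∈ range L, 6 := sum_le_sum fun i _ => dig_le _
    _ = 6 * L := by simp; ring

/-- Number of defects in a piece of a row. -/
def defects (E : Env) (i₀ : ℤ) (L : ℕ) (j : ℤ) : ℕ :=
  ((range L).filter (fun i => ¬ Rel (E.win (i₀ + (i:ℕ)) j))).card

/-- A window is bad if it is not a correct window of type `true`. -/
def Bad (w : Win) : Prop := ¬ (Rel w ∧ w.1 = true)

instance : DecidablePred Bad := fun w => by unfold Bad; infer_instance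

/-- Number of bad sites in a piece of a row. -/
def bads (E : Env) (i₀ : ℤ) (L : ℕ) (j : ℤ) : ℕ :=
  ((range L).filter (fun i => Bad (E.win (i₀ + (i:ℕ)) j))).card

lemma carry_telescope (E : Env) (i₀ : ℤ) (L : ℕ) (j : ℤ) :
    ∑ i ∈ range L, (car (E.cell (i₀ + i) j) - car (E.cell (i₀ + i + 1) j)) ≤ 2 := by
  have h : ∑ i ∈ range L, (car (E.cell (i₀ + i) j) - car (E.cell (i₀ + i + 1) j)) =
      car (E.cell i₀ j) - car (E.cell (i₀ + L) j) := by
    have := Finset.sum_range_sub' (fun i : ℕ => car (E.cell (i₀ + i) j)) L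
    simp only [Nat.cast_add, Nat.cast_one, Nat.cast_zero, add_zero] at this
    rw [← this]
    refine sum_congr rfl fun i _ => ?_
    rw [add_assoc]
  rw [h]
  have h1 := car_le (E.cell i₀ j)
  have h2 := car_nonneg (E.cell (i₀ + L) j)
  linarith

lemma defects_eq (E : Env) (i₀ : ℤ) (L : ℕ) (j : ℤ) :
    (defects E i₀ L j : ℤ) = ∑ i ∈ range L, (if ¬ Rel (E.win (i₀ + (i:ℕ)) j) then 1 else 0) := by
  unfold defects
  rw [Finset.sum_boole]

lemma row_true (E : Env) (i₀ : ℤ) (L : ℕ) (j : ℤ) (hj : E.ty j = true) :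
    3 * rowSum E i₀ L (j + 1) ≤ rowSum E i₀ L j + 2 + 19 * defects E i₀ L j := by
  have h : ∀ i ∈ range L, 3 * dig (E.cell (i₀ + i) (j + 1)) ≤ dig (E.cell (i₀ + i) j) +
      (car (E.cell (i₀ + i) j) - car (E.cell (i₀ + i + 1) j)) +
      19 * (if ¬ Rel (E.win (i₀ + (i:ℕ)) j) then 1 else 0) := by
    intro i _
    by_cases hR : Rel (E.win (i₀ + (i:ℕ)) j)
    · rw [if_neg (not_not.mpr hR)]
      unfold Rel Env.win at hR
      simp only [hj, if_true] at hR
      linarith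
    · rw [if_pos hR]
      have h1 := dig_le (E.cell (i₀ + i) (j + 1))
      have h2 := dig_pos (E.cell (i₀ + i) j)
      have h3 := car_nonneg (E.cell (i₀ + i) j)
      have h4 := car_le (E.cell (i₀ + i + 1) j)
      linarith
  have hs := sum_le_sum h
  rw [← mul_sum, sum_add_distrib, sum_add_distrib, ← mul_sum, ← defects_eq] at hs
  have ht := carry_telescope E i₀ L j
  unfold rowSum
  linarith

lemma row_false (E : Env) (i₀ : ℤ) (L : ℕ) (j : ℤ) (hj : E.ty j = false) :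
    rowSum E i₀ L (j + 1) ≤ 2 * rowSum E i₀ L j + 2 + 19 * defects E i₀ L j := by
  have h : ∀ i ∈ range L, dig (E.cell (i₀ + i) (j + 1)) ≤ 2 * dig (E.cell (i₀ + i) j) +
      (car (E.cell (i₀ + i) j) - car (E.cell (i₀ + i + 1) j)) +
      19 * (if ¬ Rel (E.win (i₀ + (i:ℕ)) j) then 1 else 0) := by
    intro i _
    by_cases hR : Rel (E.win (i₀ + (i:ℕ)) j)
    · rw [if_neg (not_not.mpr hR)]
      unfold Rel Env.win at hR
      simp only [hj, Bool.false_eq_true, if_false] at hR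
      linarith
    · rw [if_pos hR]
      have h1 := dig_le (E.cell (i₀ + i) (j + 1))
      have h2 := dig_pos (E.cell (i₀ + i) j)
      have h3 := car_nonneg (E.cell (i₀ + i) j)
      have h4 := car_le (E.cell (i₀ + i + 1) j)
      linarith
  have hs := sum_le_sum h
  rw [sum_add_distrib, sum_add_distrib, ← mul_sum, ← mul_sum, ← defects_eq] at hs
  have ht := carry_telescope E i₀ L j
  unfold rowSum
  linarith

/-- Any square contains many bad sites. -/
lemma many_bads (E : Env) (i₀ j₀ : ℤ) (L : ℕ) :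
    2 * (L:ℤ) ^ 2 ≤ 7 * L + 19 * ∑ j ∈ range L, (bads E i₀ L (j₀ + j) : ℤ) := by
  have hrow : ∀ j ∈ range L, 3 * rowSum E i₀ L (j₀ + (j + 1 : ℕ)) - rowSum E i₀ L (j₀ + j) ≤
      2 + 19 * (bads E i₀ L (j₀ + j) : ℤ) := by
    intro j _
    have he : (j₀ + (j + 1 : ℕ) : ℤ) = (j₀ + j) + 1 := by push_cast; ring
    rw [he]
    rcases Bool.eq_false_or_eq_true (E.ty (j₀ + j)) with h | h
    · have h1 := row_true E i₀ L (j₀ + j) h
      have h2 : bads E i₀ L (j₀ + j) = defects E i₀ L (j₀ + j) := by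
        unfold bads defects
        congr 1
        ext i
        simp only [mem_filter, mem_range, Bad, not_and]
        constructor
        · rintro ⟨h3, h4⟩
          exact ⟨h3, fun h5 => h4 h5 h⟩
        · rintro ⟨h3, h4⟩
          exact ⟨h3, fun h5 => absurd h5 h4⟩
      rw [h2]
      linarith
    · have h2 : bads E i₀ L (j₀ + j) = L := by
        unfold bads
        rw [filter_true_of_mem, card_range]
        intro i _ h3
        have : (E.win (i₀ + (i:ℕ)) (j₀ + j)).1 = E.ty (j₀ + j) := rfl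
        rw [this, h] at h3
        exact absurd h3.2 (by simp)
      rw [h2]
      have h3 := rowSum_le E i₀ L (j₀ + j + 1)
      have h4 := le_rowSum E i₀ L (j₀ + j)
      have h5 : (0:ℤ) ≤ L := Int.natCast_nonneg L
      linarith
  have hs := sum_le_sum hrow
  have hl : 2 * (L:ℤ) ^ 2 - 5 * L ≤
      ∑ j ∈ range L, (3 * rowSum E i₀ L (j₀ + (j + 1 : ℕ)) - rowSum E i₀ L (j₀ + j)) := by
    have h1 : ∑ j ∈ range L, (3 * rowSum E i₀ L (j₀ + (j + 1 : ℕ)) - rowSum E i₀ L (j₀ + j)) =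
        ∑ j ∈ range L, 2 * rowSum E i₀ L (j₀ + (j + 1 : ℕ)) +
        ∑ j ∈ range L, (rowSum E i₀ L (j₀ + (j + 1 : ℕ)) - rowSum E i₀ L (j₀ + j)) := by
      rw [← sum_add_distrib]
      refine sum_congr rfl fun j _ => ?_
      ring
    rw [h1, Finset.sum_range_sub (fun j : ℕ => rowSum E i₀ L (j₀ + j))]
    have h2 : ∑ _j ∈ range L, 2 * (L:ℤ) ≤ ∑ j ∈ range L, 2 * rowSum E i₀ L (j₀ + (j + 1 : ℕ)) :=
      sum_le_sum fun j _ => by
        have := le_rowSum E i₀ L (j₀ + (j + 1 : ℕ))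
        linarith
    rw [sum_const, card_range, nsmul_eq_mul] at h2
    have h3 := le_rowSum E i₀ L (j₀ + L)
    have h4 := rowSum_le E i₀ L (j₀ + (0:ℕ))
    nlinarith
  rw [sum_add_distrib, sum_const, card_range, nsmul_eq_mul, ← mul_sum] at hs
  linarith

lemma exp19 : 2 * Real.exp 19 ≤ 10 ^ 9 := by
  have h1 : Real.exp 19 = Real.exp 1 ^ 19 := by
    rw [← Real.exp_nat_mul]; norm_num
  have h2 : Real.exp 1 < 2.72 := lt_trans Real.exp_one_lt_d9 (by norm_num)
  rw [h1]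
  calc 2 * Real.exp 1 ^ 19 ≤ 2 * (2.72:ℝ) ^ 19 := by gcongr
    _ ≤ 10 ^ 9 := by norm_num

lemma exp2 : 6 * Real.exp 2 ≤ 45 := by
  have h1 : Real.exp 2 = Real.exp 1 ^ 2 := by
    rw [← Real.exp_nat_mul]; norm_num
  have h2 : Real.exp 1 < 2.72 := lt_trans Real.exp_one_lt_d9 (by norm_num)
  rw [h1]
  calc 6 * Real.exp 1 ^ 2 ≤ 6 * (2.72:ℝ) ^ 2 := by gcongr
    _ ≤ 45 := by norm_num

/-- Product of the numbers of choices over a piece of a row. -/
noncomputable def rowProd (n : ℕ) (E : Env) (i₀ : ℤ) (L : ℕ) (j : ℤ) : ℝ :=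
  ∏ i ∈ range L, (nc n (E.win (i₀ + (i:ℕ)) j) : ℝ)

lemma rowProd_nonneg (n : ℕ) (E : Env) (i₀ : ℤ) (L : ℕ) (j : ℤ) : 0 ≤ rowProd n E i₀ L j :=
  prod_nonneg fun _ _ => Nat.cast_nonneg _

lemma rowProd_step {n : ℕ} (hn : 10 ^ 9 ≤ n) (E : Env) (i₀ : ℤ) {L : ℕ} (hL : 0 < L) (j : ℤ) :
    rowProd n E i₀ L j * (rowSum E i₀ L (j + 1) : ℝ) ^ L ≤
      ((n:ℝ) ^ L * Real.exp 2) * (rowSum E i₀ L j : ℝ) ^ L := by
  have hn' : (10:ℝ) ^ 9 ≤ n := by exact_mod_cast hn
  have hnpos : (0:ℝ) < n := lt_of_lt_of_le (by norm_num) hn'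
  set d := defects E i₀ L j with hd
  set g := ((range L).filter (fun i => Rel (E.win (i₀ + (i:ℕ)) j))).card with hg
  have hgd : g + d = L := by
    have := Finset.card_filter_add_card_filter_not (s := range L)
      (fun i => Rel (E.win (i₀ + (i:ℕ)) j))
    rw [card_range] at this
    exact this
  set S : ℝ := (rowSum E i₀ L j : ℝ) with hS
  set S' : ℝ := (rowSum E i₀ L (j + 1) : ℝ) with hS'
  have hL' : (0:ℝ) < L := by exact_mod_cast hL
  have hSL : (L:ℝ) ≤ S := by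
    have := le_rowSum E i₀ L j
    rw [hS]; exact_mod_cast this
  have hSpos : 0 < S := lt_of_lt_of_le hL' hSL
  have hS'0 : 0 ≤ S' := by
    have h1 := le_rowSum E i₀ L (j + 1)
    have h2 : (L:ℝ) ≤ S' := by rw [hS']; exact_mod_cast h1
    linarith
  have hd0 : (0:ℝ) ≤ d := Nat.cast_nonneg d
  -- the exponential bound
  have hexp : ((S + (2 + 19 * d)) : ℝ) ^ L ≤ S ^ L * (Real.exp 2 * (Real.exp 19) ^ d) := by
    have h1 : S + (2 + 19 * d) = S * (1 + (2 + 19 * d) / S) := by field_simp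
    rw [h1, mul_pow]
    have h2 : 1 + (2 + 19 * d) / S ≤ Real.exp ((2 + 19 * d) / S) := by
      have := Real.add_one_le_exp ((2 + 19 * (d:ℝ)) / S)
      linarith
    have h3 : (1 + (2 + 19 * d) / S) ^ L ≤ Real.exp (2 + 19 * d) := by
      calc (1 + (2 + 19 * d) / S) ^ L ≤ (Real.exp ((2 + 19 * d) / S)) ^ L := by
            apply pow_le_pow_left₀ (by positivity) h2
        _ = Real.exp (L * ((2 + 19 * d) / S)) := by rw [← Real.exp_nat_mul]
        _ ≤ Real.exp (2 + 19 * d) := by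
            apply Real.exp_le_exp.mpr
            rw [mul_div_assoc', div_le_iff₀ hSpos]
            nlinarith
    have h4 : Real.exp (2 + 19 * d) = Real.exp 2 * (Real.exp 19) ^ d := by
      rw [Real.exp_add, ← Real.exp_nat_mul]
      congr 2
      ring
    rw [← h4]
    gcongr
  have he19 : 2 * Real.exp 19 ≤ n := exp19.trans hn'
  have he19' : Real.exp 19 ≤ n := by
    have := Real.exp_pos 19
    linarith
  rcases Bool.eq_false_or_eq_true (E.ty j) with hty | hty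
  · -- type true
    have hprod : rowProd n E i₀ L j = (3 * (n:ℝ)) ^ g := by
      unfold rowProd
      have : ∀ i ∈ range L, (nc n (E.win (i₀ + (i:ℕ)) j) : ℝ) =
          if Rel (E.win (i₀ + (i:ℕ)) j) then 3 * (n:ℝ) else 1 := by
        intro i _
        unfold nc
        have h1 : (E.win (i₀ + (i:ℕ)) j).1 = true := hty
        rw [h1]
        simp only [if_true]
        by_cases hR : Rel (E.win (i₀ + (i:ℕ)) j)
        · rw [if_pos hR, if_pos hR]; push_cast; ring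
        · rw [if_neg hR, if_neg hR]; simp
      rw [prod_congr rfl this, prod_ite, prod_const, prod_const_one, mul_one]
    have hrow := row_true E i₀ L j hty
    have hrow' : 3 * S' ≤ S + (2 + 19 * d) := by
      have h1 : ((3 * rowSum E i₀ L (j + 1) : ℤ) : ℝ) ≤
          ((rowSum E i₀ L j + 2 + 19 * defects E i₀ L j : ℤ) : ℝ) := by exact_mod_cast hrow
      push_cast at h1
      rw [hS, hS', hd]
      linarith
    have h5 : (3 * S') ^ L ≤ S ^ L * (Real.exp 2 * (Real.exp 19) ^ d) :=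
      (pow_le_pow_left₀ (by positivity) hrow' L).trans hexp
    rw [hprod]
    have h6 : (3:ℝ) ^ g ≤ 3 ^ L := pow_le_pow_right₀ (by norm_num) (by omega)
    calc (3 * (n:ℝ)) ^ g * S' ^ L = (n:ℝ) ^ g * (3 ^ g * S' ^ L) := by rw [mul_pow]; ring
      _ ≤ (n:ℝ) ^ g * (3 ^ L * S' ^ L) := by gcongr
      _ = (n:ℝ) ^ g * (3 * S') ^ L := by rw [mul_pow]
      _ ≤ (n:ℝ) ^ g * (S ^ L * (Real.exp 2 * (Real.exp 19) ^ d)) := by gcongr
      _ ≤ (n:ℝ) ^ g * (S ^ L * (Real.exp 2 * (n:ℝ) ^ d)) := by gcongr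
      _ = ((n:ℝ) ^ L * Real.exp 2) * S ^ L := by rw [← hgd, pow_add]; ring
  · -- type false
    have hprod : rowProd n E i₀ L j ≤ ((n:ℝ) / 2) ^ g := by
      unfold rowProd
      have : ∀ i ∈ range L, (nc n (E.win (i₀ + (i:ℕ)) j) : ℝ) ≤
          if Rel (E.win (i₀ + (i:ℕ)) j) then (n:ℝ) / 2 else 1 := by
        intro i _
        unfold nc
        have h1 : (E.win (i₀ + (i:ℕ)) j).1 = false := hty
        rw [h1]
        simp only [Bool.false_eq_true, if_false]
        split_ifs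
        · exact_mod_cast Nat.cast_div_le
        · simp
      refine (prod_le_prod (fun i _ => Nat.cast_nonneg _) this).trans (le_of_eq ?_)
      rw [prod_ite, prod_const, prod_const_one, mul_one]
    have hrow := row_false E i₀ L j hty
    have hrow' : S' ≤ 2 * (S + (2 + 19 * d)) := by
      have h1 : ((rowSum E i₀ L (j + 1) : ℤ) : ℝ) ≤
          ((2 * rowSum E i₀ L j + 2 + 19 * defects E i₀ L j : ℤ) : ℝ) := by exact_mod_cast hrow
      push_cast at h1
      rw [hS, hS', hd]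
      have : (0:ℝ) ≤ (defects E i₀ L j : ℝ) := Nat.cast_nonneg _
      linarith
    have h5 : S' ^ L ≤ 2 ^ L * (S ^ L * (Real.exp 2 * (Real.exp 19) ^ d)) := by
      calc S' ^ L ≤ (2 * (S + (2 + 19 * d))) ^ L := pow_le_pow_left₀ hS'0 hrow' L
        _ = 2 ^ L * (S + (2 + 19 * d)) ^ L := mul_pow _ _ _
        _ ≤ _ := by gcongr
    calc rowProd n E i₀ L j * S' ^ L
        ≤ ((n:ℝ) / 2) ^ g * (2 ^ L * (S ^ L * (Real.exp 2 * (Real.exp 19) ^ d))) := by
          apply mul_le_mul hprod h5 (by positivity) (by positivity)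
      _ = (n:ℝ) ^ g * (S ^ L * (Real.exp 2 * (2 * Real.exp 19) ^ d)) := by
          rw [← hgd, div_pow, pow_add, mul_pow]
          field_simp
      _ ≤ (n:ℝ) ^ g * (S ^ L * (Real.exp 2 * (n:ℝ) ^ d)) := by gcongr
      _ = ((n:ℝ) ^ L * Real.exp 2) * S ^ L := by rw [← hgd, pow_add]; ring

/-- Upper bound for the number of choices over a square. -/
lemma square_upper {n : ℕ} (hn : 10 ^ 9 ≤ n) (E : Env) (i₀ j₀ : ℤ) (L : ℕ) :
    ∏ j ∈ range L, rowProd n E i₀ L (j₀ + (j:ℕ)) ≤ (n:ℝ) ^ (L ^ 2) * 45 ^ L := by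
  rcases Nat.eq_zero_or_pos L with rfl | hL
  · simp
  have hL' : (0:ℝ) < L := by exact_mod_cast hL
  have hind : ∀ M : ℕ, (∏ j ∈ range M, rowProd n E i₀ L (j₀ + (j:ℕ))) *
      (rowSum E i₀ L (j₀ + M) : ℝ) ^ L ≤
      ((n:ℝ) ^ L * Real.exp 2) ^ M * (rowSum E i₀ L j₀ : ℝ) ^ L := by
    intro M
    induction M with
    | zero => simp
    | succ M ih =>
      rw [prod_range_succ]
      have he : (j₀ + (M + 1 : ℕ) : ℤ) = (j₀ + M) + 1 := by push_cast; ring
      rw [he]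
      have hstep := rowProd_step hn E i₀ hL (j₀ + M)
      have hP : 0 ≤ ∏ j ∈ range M, rowProd n E i₀ L (j₀ + (j:ℕ)) :=
        prod_nonneg fun _ _ => rowProd_nonneg _ _ _ _ _
      calc (∏ j ∈ range M, rowProd n E i₀ L (j₀ + (j:ℕ))) * rowProd n E i₀ L (j₀ + M) *
            (rowSum E i₀ L (j₀ + M + 1) : ℝ) ^ L
          = (∏ j ∈ range M, rowProd n E i₀ L (j₀ + (j:ℕ))) * (rowProd n E i₀ L (j₀ + M) *
            (rowSum E i₀ L (j₀ + M + 1) : ℝ) ^ L) := by ring
        _ ≤ (∏ j ∈ range M, rowProd n E i₀ L (j₀ + (j:ℕ))) * (((n:ℝ) ^ L * Real.exp 2) *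
            (rowSum E i₀ L (j₀ + M) : ℝ) ^ L) := by gcongr
        _ = ((n:ℝ) ^ L * Real.exp 2) * ((∏ j ∈ range M, rowProd n E i₀ L (j₀ + (j:ℕ))) *
            (rowSum E i₀ L (j₀ + M) : ℝ) ^ L) := by ring
        _ ≤ ((n:ℝ) ^ L * Real.exp 2) * (((n:ℝ) ^ L * Real.exp 2) ^ M *
            (rowSum E i₀ L j₀ : ℝ) ^ L) := by gcongr
        _ = _ := by rw [pow_succ]; ring
  have h := hind L
  have h1 : (L:ℝ) ^ L ≤ (rowSum E i₀ L (j₀ + L) : ℝ) ^ L := by
    have := le_rowSum E i₀ L (j₀ + L)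
    have h2 : (L:ℝ) ≤ (rowSum E i₀ L (j₀ + L) : ℝ) := by exact_mod_cast this
    gcongr
  have h3 : (rowSum E i₀ L j₀ : ℝ) ^ L ≤ (6 * L : ℝ) ^ L := by
    have h4 := rowSum_le E i₀ L j₀
    have h5 : (rowSum E i₀ L j₀ : ℝ) ≤ 6 * L := by exact_mod_cast h4
    have h6 : (0:ℝ) ≤ (rowSum E i₀ L j₀ : ℝ) := by
      have := le_rowSum E i₀ L j₀
      have h7 : (L:ℝ) ≤ (rowSum E i₀ L j₀ : ℝ) := by exact_mod_cast this
      linarith
    gcongr
  have hP : 0 ≤ ∏ j ∈ range L, rowProd n E i₀ L (j₀ + (j:ℕ)) :=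
    prod_nonneg fun _ _ => rowProd_nonneg _ _ _ _ _
  have h8 : (∏ j ∈ range L, rowProd n E i₀ L (j₀ + (j:ℕ))) * (L:ℝ) ^ L ≤
      ((n:ℝ) ^ (L ^ 2) * 45 ^ L) * (L:ℝ) ^ L := by
    calc (∏ j ∈ range L, rowProd n E i₀ L (j₀ + (j:ℕ))) * (L:ℝ) ^ L
        ≤ (∏ j ∈ range L, rowProd n E i₀ L (j₀ + (j:ℕ))) *
          (rowSum E i₀ L (j₀ + L) : ℝ) ^ L := by gcongr
      _ ≤ ((n:ℝ) ^ L * Real.exp 2) ^ L * (rowSum E i₀ L j₀ : ℝ) ^ L := h
      _ ≤ ((n:ℝ) ^ L * Real.exp 2) ^ L * (6 * L : ℝ) ^ L := by gcongr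
      _ = (n:ℝ) ^ (L ^ 2) * (6 * Real.exp 2) ^ L * (L:ℝ) ^ L := by
          rw [mul_pow, mul_pow, mul_pow, ← pow_mul, sq]; ring
      _ ≤ (n:ℝ) ^ (L ^ 2) * 45 ^ L * (L:ℝ) ^ L := by
          have := exp2
          gcongr
  exact le_of_mul_le_mul_right h8 (by positivity)

/-- The divisibility property of the numbers of choices. -/
lemma nc_dvd {n : ℕ} (hn : Even n) (w : Win) : (if Bad w then 2 else 1) * nc n w ∣ 3 * n := by
  obtain ⟨k, hk⟩ := hn
  unfold nc Bad
  by_cases hR : Rel w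
  · rcases Bool.eq_false_or_eq_true w.1 with h | h
    · simp [hR, h]
    · simp only [hR, h, if_true, true_and, Bool.false_eq_true, not_false_eq_true, if_false]
      have : n / 2 = k := by omega
      rw [this]
      exact ⟨3, by omega⟩
  · simp only [hR, false_and, not_false_eq_true, if_true, if_false]
    exact ⟨3 * k, by omega⟩

lemma nc_pos {n : ℕ} (hn : 2 ≤ n) (w : Win) : 0 < nc n w := by
  unfold nc
  split_ifs <;> omega

lemma nc_le {n : ℕ} (hn : 1 ≤ n) (w : Win) : nc n w ≤ 3 * n := by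
  unfold nc
  split_ifs <;> omega

end Pool.Agent.Work.MP_6eef91_an
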