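import Mathlib
import Pool.Agent.Work.MP_6eef91_an.Env

set_option autoImplicit false

namespace Pool.Agent.Work.MP_6eef91_an

open Set

/-- The alphabet of the system. -/
abbrev Sym (n : ℕ) : Type := Win × Fin (3 * n)

/-- The system: a window of an environment (constant in all directions except the first two) and a
choice among `nc n` possibilities at each site. -/
def XS (m n : ℕ) : Set (Config (m + 3) (Sym n)) :=
  {x | ∃ E : Env, ∀ v : Fin (m + 3) → ℤ,
    (x v).1 = E.win (v 0) (v 1) ∧ ((x v).2 : ℕ) < nc n (x v).1}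

/-- The local constraints. -/
def LC {m n : ℕ} (v w : Fin (m + 3) → ℤ) (a b : Sym n) : Prop :=
  ((a.2 : ℕ) < nc n a.1) ∧ (v 1 = w 1 → a.1.1 = b.1.1) ∧
  (w 0 = v 0 → w 1 = v 1 → a.1.2.1 = b.1.2.1) ∧
  (w 0 = v 0 + 1 → w 1 = v 1 → a.1.2.2.1 = b.1.2.1) ∧
  (w 0 = v 0 → w 1 = v 1 + 1 → a.1.2.2.2 = b.1.2.1)

lemma one_ne_zero' (m : ℕ) : (1 : Fin (m + 3)) ≠ 0 := by
  intro h
  have := congrArg Fin.val h
  simp at this

lemma mem_XS_iff {m n : ℕ} (x : Config (m + 3) (Sym n)) :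
    x ∈ XS m n ↔ ∀ v w, LC v w (x v) (x w) := by
  constructor
  · rintro ⟨E, hE⟩ v w
    have hv := hE v
    have hw := (hE w).1
    refine ⟨hv.2, ?_, ?_, ?_, ?_⟩
    · intro h; rw [hv.1, hw]; simp only [Env.win, h]
    · intro h1 h2; rw [hv.1, hw]; simp only [Env.win, h1, h2]
    · intro h1 h2; rw [hv.1, hw]; simp only [Env.win, h1, h2]
    · intro h1 h2; rw [hv.1, hw]; simp only [Env.win, h1, h2]
  · intro h
    set pt : ℤ → ℤ → (Fin (m + 3) → ℤ) := fun i j k => if k = 0 then i else if k = 1 then j else 0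
      with hpt
    have hp0 : ∀ i j, pt i j 0 = i := fun i j => by simp [hpt]
    have hp1 : ∀ i j, pt i j 1 = j := fun i j => by simp [hpt, one_ne_zero' m]
    refine ⟨⟨fun j => (x (pt 0 j)).1.1, fun i j => (x (pt i j)).1.2.1⟩, fun v => ⟨?_, (h v v).1⟩⟩
    unfold Env.win
    simp only
    have h1 := (h v (pt 0 (v 1))).2.1 (by rw [hp1])
    have h2 := (h v (pt (v 0) (v 1))).2.2.1 (by rw [hp0]) (by rw [hp1])
    have h3 := (h v (pt (v 0 + 1) (v 1))).2.2.2.1 (by rw [hp0]) (by rw [hp1])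
    have h4 := (h v (pt (v 0) (v 1 + 1))).2.2.2.2 (by rw [hp0]) (by rw [hp1])
    exact Prod.ext h1 (Prod.ext h2 (Prod.ext h3 h4))

lemma isClosed_XS (m n : ℕ) : IsClosed (XS m n) := by
  have : XS m n = ⋂ (v) (w), {x | LC v w (x v) (x w)} := by
    ext x
    rw [mem_XS_iff]
    simp
  rw [this]
  refine isClosed_iInter fun v => isClosed_iInter fun w => ?_
  have hc : Continuous (fun x : Config (m + 3) (Sym n) => (x v, x w)) :=
    (continuous_apply v).prodMk (continuous_apply w)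
  exact IsClosed.preimage hc (isClosed_discrete {p : Sym n × Sym n | LC v w p.1 p.2})

/-- Translate of an environment. -/
def Env.translate (E : Env) (a b : ℤ) : Env where
  ty j := E.ty (j + b)
  cell i j := E.cell (i + a) (j + b)

lemma Env.translate_win (E : Env) (a b i j : ℤ) :
    (E.translate a b).win i j = E.win (i + a) (j + b) := by
  unfold Env.translate Env.win
  simp only
  rw [show i + 1 + a = i + a + 1 by ring, show j + 1 + b = j + b + 1 by ring]

lemma shift_mem_XS {m n : ℕ} (u : Fin (m + 3) → ℤ) {x : Config (m + 3) (Sym n)}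
    (hx : x ∈ XS m n) : shift u x ∈ XS m n := by
  obtain ⟨E, hE⟩ := hx
  refine ⟨E.translate (- u 0) (- u 1), fun v => ?_⟩
  unfold shift
  rw [Env.translate_win]
  have := hE (v - u)
  simp only [Pi.sub_apply] at this
  rw [← sub_eq_add_neg, ← sub_eq_add_neg]
  exact this

/-- `Reads s p`: the symbol at the site `s` displays the piece `p` of the environment. -/
def Reads {m : ℕ} (s : Fin (m + 3) → ℤ) : ℤ ⊕ (ℤ × ℤ) → Prop
  | Sum.inl j => j = s 1
  | Sum.inr q => (q.1 = s 0 ∧ q.2 = s 1) ∨ (q.1 = s 0 + 1 ∧ q.2 = s 1) ∨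
      (q.1 = s 0 ∧ q.2 = s 1 + 1)

/-- Two environments agree at a piece. -/
def Agree (E E' : Env) : ℤ ⊕ (ℤ × ℤ) → Prop
  | Sum.inl j => E.ty j = E'.ty j
  | Sum.inr q => E.cell q.1 q.2 = E'.cell q.1 q.2

lemma agree_of_reads {m : ℕ} {E E' : Env} {s : Fin (m + 3) → ℤ}
    (h : E.win (s 0) (s 1) = E'.win (s 0) (s 1)) {p : ℤ ⊕ (ℤ × ℤ)} (hp : Reads s p) :
    Agree E E' p := by
  unfold Env.win at h
  simp only [Prod.mk.injEq] at h
  obtain ⟨h1, h2, h3, h4⟩ := h
  rcases p with j | ⟨i, j⟩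
  · simp only [Reads] at hp
    simp only [Agree, hp, h1]
  · simp only [Reads] at hp
    simp only [Agree]
    rcases hp with ⟨e1, e2⟩ | ⟨e1, e2⟩ | ⟨e1, e2⟩
    · rw [e1, e2]; exact h2
    · rw [e1, e2]; exact h3
    · rw [e1, e2]; exact h4

lemma win_eq_of_agree {m : ℕ} {E E' : Env} {s : Fin (m + 3) → ℤ}
    (h : ∀ p, Reads s p → Agree E E' p) : E.win (s 0) (s 1) = E'.win (s 0) (s 1) := by
  have h1 : E.ty (s 1) = E'.ty (s 1) := h (Sum.inl (s 1)) rfl
  have h2 : E.cell (s 0) (s 1) = E'.cell (s 0) (s 1) :=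
    h (Sum.inr (s 0, s 1)) (Or.inl ⟨rfl, rfl⟩)
  have h3 : E.cell (s 0 + 1) (s 1) = E'.cell (s 0 + 1) (s 1) :=
    h (Sum.inr (s 0 + 1, s 1)) (Or.inr (Or.inl ⟨rfl, rfl⟩))
  have h4 : E.cell (s 0) (s 1 + 1) = E'.cell (s 0) (s 1 + 1) :=
    h (Sum.inr (s 0, s 1 + 1)) (Or.inr (Or.inr ⟨rfl, rfl⟩))
  unfold Env.win
  rw [h1, h2, h3, h4]

lemma followers_eq {m n : ℕ} (hn : 2 ≤ n) {S T : Set (Fin (m + 3) → ℤ)} (hTS : T ⊆ S)
    {v : Fin (m + 3) → ℤ} (hv : v ∉ S)
    (hread : ∀ p, Reads v p → (∃ s ∈ S, Reads s p) → ∃ t ∈ T, Reads t p)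
    {x : Config (m + 3) (Sym n)} (hx : x ∈ XS m n) :
    followers (XS m n) x S v = followers (XS m n) x T v := by
  classical
  apply Subset.antisymm
  · rintro a ⟨y, hy, hyS, hya⟩
    exact ⟨y, hy, fun s hs => hyS s (hTS hs), hya⟩
  · rintro a ⟨y, hy, hyT, hya⟩
    obtain ⟨E, hE⟩ := hx
    obtain ⟨E', hE'⟩ := hy
    -- the glued environment
    set G : Env :=
      { ty := fun j => if ∃ s ∈ S, Reads s (Sum.inl j) then E.ty j else E'.ty j
        cell := fun i j => if ∃ s ∈ S, Reads s (Sum.inr (i, j)) then E.cell i j else E'.cell i j }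
      with hG
    have hGE : ∀ p, (∃ s ∈ S, Reads s p) → Agree G E p := by
      intro p hp
      rcases p with j | ⟨i, j⟩
      · simp only [Agree, hG, if_pos hp]
      · simp only [Agree, hG, if_pos hp]
    have hGE' : ∀ p, ¬ (∃ s ∈ S, Reads s p) → Agree G E' p := by
      intro p hp
      rcases p with j | ⟨i, j⟩
      · simp only [Agree, hG, if_neg hp]
      · simp only [Agree, hG, if_neg hp]
    have hwinS : ∀ s ∈ S, G.win (s 0) (s 1) = E.win (s 0) (s 1) := fun s hs =>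
      win_eq_of_agree fun p hp => hGE p ⟨s, hs, hp⟩
    have hwinv : G.win (v 0) (v 1) = E'.win (v 0) (v 1) := by
      apply win_eq_of_agree
      intro p hp
      by_cases h : ∃ s ∈ S, Reads s p
      · obtain ⟨t, ht, htp⟩ := hread p hp h
        have h1 : E.win (t 0) (t 1) = E'.win (t 0) (t 1) := by
          rw [← (hE t).1, ← (hE' t).1, hyT t ht]
        have h2 := agree_of_reads h1 htp
        have h3 := hGE p h
        rcases p with j | ⟨i, j⟩
        · simp only [Agree] at h2 h3 ⊢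
          rw [h3, h2]
        · simp only [Agree] at h2 h3 ⊢
          rw [h3, h2]
      · exact hGE' p h
    have h3n : 0 < 3 * n := by omega
    set z : Config (m + 3) (Sym n) := fun w =>
      if w ∈ S then x w else if w = v then a else (G.win (w 0) (w 1), ⟨0, h3n⟩) with hz
    have hzS : ∀ w ∈ S, z w = x w := fun w hw => by simp only [hz, if_pos hw]
    have hzv : z v = a := by simp only [hz, if_neg hv, if_true]
    refine ⟨z, ⟨G, fun w => ?_⟩, hzS, hzv⟩
    by_cases hw : w ∈ S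
    · rw [hzS w hw, hwinS w hw]
      exact hE w
    · by_cases hwv : w = v
      · subst hwv
        rw [hzv, ← hya, hwinv]
        exact hE' w
      · have : z w = (G.win (w 0) (w 1), ⟨0, h3n⟩) := by
          simp only [hz, if_neg hw, if_neg hwv]
        rw [this]
        exact ⟨rfl, nc_pos hn _⟩

lemma reads_finite {m : ℕ} (v : Fin (m + 3) → ℤ) : {p | Reads v p}.Finite := by
  apply Set.Finite.subset (s := {Sum.inl (v 1), Sum.inr (v 0, v 1), Sum.inr (v 0 + 1, v 1),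
    Sum.inr (v 0, v 1 + 1)})
  · exact Set.toFinite _
  · rintro (j | ⟨i, j⟩) hp
    · simp only [Reads, mem_ofPred_eq] at hp
      simp [hp]
    · simp only [Reads, mem_ofPred_eq] at hp
      rcases hp with ⟨e1, e2⟩ | ⟨e1, e2⟩ | ⟨e1, e2⟩ <;> simp [e1, e2]

theorem isAvoshift_XS (m : ℕ) {n : ℕ} (hn : 2 ≤ n) : IsAvoshift (XS m n) := by
  classical
  refine ⟨⟨isClosed_XS m n, fun u x hx => shift_mem_XS u hx⟩, ?_⟩
  intro C v _ hv _
  set g : ℤ ⊕ (ℤ × ℤ) → (Fin (m + 3) → ℤ) := fun p =>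
    if h : ∃ s ∈ C, Reads s p then Classical.choose h else v with hg
  have hgs : ∀ p, (∃ s ∈ C, Reads s p) → g p ∈ C ∧ Reads (g p) p := by
    intro p h
    simp only [hg, dif_pos h]
    exact Classical.choose_spec h
  refine ⟨g '' {p | Reads v p ∧ ∃ s ∈ C, Reads s p}, ?_, ?_, ?_⟩
  · exact ((reads_finite v).subset fun p hp => hp.1).image g
  · rintro _ ⟨p, ⟨_, hp⟩, rfl⟩
    exact (hgs p hp).1
  · intro x hx
    apply followers_eq hn _ hv _ hx
    · rintro _ ⟨p, ⟨_, hp⟩, rfl⟩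
      exact (hgs p hp).1
    · intro p hp1 hp2
      exact ⟨g p, ⟨p, ⟨hp1, hp2⟩, rfl⟩, (hgs p hp2).2⟩

end Pool.Agent.Work.MP_6eef91_an
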