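import Mathlib
import Pool.Agent.Work.MP_6eef91_an.Sys

set_option autoImplicit false

namespace Pool.Agent.Work.MP_6eef91_an

/-- Factor maps are local. -/
lemma chl {m n : ℕ} {π : XS m n → Config (m + 3) (Fin n)}
    (hπ : IsFactorMapOntoFullShift (XS m n) n π) :
    ∃ r : ℕ, ∀ (x y : XS m n) (u : Fin (m + 3) → ℤ),
      (∀ v, (∀ i, |v i - u i| ≤ (r : ℤ)) → x.1 v = y.1 v) → π x u = π y u := by
  obtain ⟨hc, hs, hcomm⟩ := hπ
  have : CompactSpace (XS m n) := isCompact_iff_compactSpace.mp (isClosed_XS m n).isCompact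
  set D : ℕ → Set (XS m n × XS m n) := fun r =>
    {p | (∀ v : Fin (m + 3) → ℤ, (∀ i, |v i| ≤ (r : ℤ)) → p.1.1 v = p.2.1 v) ∧
      π p.1 0 ≠ π p.2 0} with hD
  have hclosed : ∀ r, IsClosed (D r) := by
    intro r
    have h1 : IsClosed {p : XS m n × XS m n |
        ∀ v : Fin (m + 3) → ℤ, (∀ i, |v i| ≤ (r : ℤ)) → p.1.1 v = p.2.1 v} := by
      simp only [Set.ofPred_forall]
      refine isClosed_iInter fun v => isClosed_iInter fun _ => ?_
      exact isClosed_eq ((continuous_apply v).comp (continuous_subtype_val.comp continuous_fst))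
        ((continuous_apply v).comp (continuous_subtype_val.comp continuous_snd))
    have h2 : IsClosed {p : XS m n × XS m n | π p.1 0 ≠ π p.2 0} := by
      have hcont : Continuous (fun p : XS m n × XS m n => (π p.1 0, π p.2 0)) :=
        (((continuous_apply 0).comp hc).comp continuous_fst).prodMk
          (((continuous_apply 0).comp hc).comp continuous_snd)
      exact (isClosed_discrete {q : Fin n × Fin n | q.1 ≠ q.2}).preimage hcont
    exact h1.inter h2
  by_cases hne : ∃ r, D r = ∅
  · obtain ⟨r, hr⟩ := hne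
    refine ⟨r, fun x y u hxy => ?_⟩
    have hsx : shift (-u) x.1 ∈ XS m n := shift_mem_XS _ x.2
    have hsy : shift (-u) y.1 ∈ XS m n := shift_mem_XS _ y.2
    have e1 : π ⟨shift (-u) x.1, hsx⟩ 0 = π x u := by
      rw [hcomm]; unfold shift; simp
    have e2 : π ⟨shift (-u) y.1, hsy⟩ 0 = π y u := by
      rw [hcomm]; unfold shift; simp
    rw [← e1, ← e2]
    by_contra hcon
    have : ((⟨shift (-u) x.1, hsx⟩, ⟨shift (-u) y.1, hsy⟩) : XS m n × XS m n) ∈ D r := by
      refine ⟨fun v hv => ?_, hcon⟩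
      unfold shift
      apply hxy
      intro i
      have := hv i
      simpa using this
    rw [hr] at this
    exact this
  · push Not at hne
    exfalso
    obtain ⟨p, hp⟩ := IsCompact.nonempty_iInter_of_sequence_nonempty_isCompact_isClosed D
      (fun r p hp => ⟨fun v hv => hp.1 v (fun i => (hv i).trans (by push_cast; linarith)), hp.2⟩)
      hne (hclosed 0).isCompact hclosed
    rw [Set.mem_iInter] at hp
    have : p.1 = p.2 := by
      apply Subtype.ext
      funext v
      apply (hp (∑ i, (v i).natAbs)).1 v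
      intro i
      rw [Int.abs_eq_natAbs]
      exact_mod_cast Finset.single_le_sum (f := fun i => (v i).natAbs)
        (fun _ _ => Nat.zero_le _) (Finset.mem_univ i)
    exact (hp 0).2 (by rw [this])

/-- Realisation of all patterns with a common environment. -/
lemma common_env {m n : ℕ} {π : XS m n → Config (m + 3) (Fin n)}
    (hπ : IsFactorMapOntoFullShift (XS m n) n π) (N r : ℕ) (hN : 0 < N) (hn : 0 < n) :
    ∃ E : Env, ∀ P : (Fin (m + 3) → Fin N) → Fin n, ∃ x : XS m n,
      (∀ v, (x.1 v).1 = E.win (v 0) (v 1)) ∧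
      ∀ v : Fin (m + 3) → Fin N, π x (fun i => ((v i : ℕ) : ℤ) + r) = P v := by
  classical
  obtain ⟨hc, hs, hcomm⟩ := hπ
  set K := Fintype.card ((Fin (m + 3) → Fin N) → Fin n) with hK
  set e : ((Fin (m + 3) → Fin N) → Fin n) ≃ Fin K := Fintype.equivFin _ with he
  set f : ℤ → ((Fin (m + 3) → Fin N) → Fin n) := fun t =>
    if h : t.toNat < K then e.symm ⟨t.toNat, h⟩ else fun _ => ⟨0, hn⟩ with hf
  have hNpos : (0:ℤ) < N := by exact_mod_cast hN
  have hmod : ∀ a : ℤ, (a % (N:ℤ)).toNat < N := by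
    intro a
    have h1 := Int.emod_nonneg a hNpos.ne'
    have h2 := Int.emod_lt_of_pos a hNpos
    omega
  set w : Config (m + 3) (Fin n) := fun u =>
    f ((u 2 - r) / N) (fun i => ⟨((u i - r) % (N:ℤ)).toNat, hmod _⟩) with hw
  obtain ⟨xw, hxw⟩ := hs w
  obtain ⟨E, hE⟩ := xw.2
  refine ⟨E, fun P => ?_⟩
  set t : ℕ := (e P : ℕ) with ht
  set u : Fin (m + 3) → ℤ := fun i => if i = 2 then -((t:ℤ) * N) else 0 with hu
  have h02 : (0 : Fin (m + 3)) ≠ 2 := by
    intro h
    have := congrArg Fin.val h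
    simp at this
    rw [Nat.mod_eq_of_lt (by omega)] at this
    omega
  have h12 : (1 : Fin (m + 3)) ≠ 2 := by
    intro h
    have := congrArg Fin.val h
    simp at this
    rw [Nat.mod_eq_of_lt (by omega)] at this
    omega
  have hu0 : u 0 = 0 := by simp only [hu, if_neg h02]
  have hu1 : u 1 = 0 := by simp only [hu, if_neg h12]
  have hu2 : u 2 = -((t:ℤ) * N) := by simp only [hu, if_true]
  refine ⟨⟨shift u xw.1, shift_mem_XS _ xw.2⟩, fun v => ?_, fun v => ?_⟩
  · show (xw.1 (v - u)).1 = _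
    rw [(hE (v - u)).1, Pi.sub_apply, Pi.sub_apply, hu0, hu1, sub_zero, sub_zero]
  · rw [hcomm, hxw]
    show w ((fun i => ((v i : ℕ) : ℤ) + r) - u) = P v
    have h1 : (((fun i => ((v i : ℕ) : ℤ) + r) - u : Fin (m + 3) → ℤ) 2 - r) / N = t := by
      rw [Pi.sub_apply, hu2]
      have hv2 := (v 2).2
      rw [show ((v 2 : ℕ) : ℤ) + r - -((t:ℤ) * N) - r = ((v 2 : ℕ) : ℤ) + t * N by ring,
        Int.add_mul_ediv_right _ _ hNpos.ne']
      rw [Int.ediv_eq_zero_of_lt (by positivity) (by exact_mod_cast hv2)]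
      ring
    have h2 : (fun i => (⟨((((fun i => ((v i : ℕ) : ℤ) + r) - u : Fin (m + 3) → ℤ) i - r)
        % (N:ℤ)).toNat, hmod _⟩ : Fin N)) = v := by
      funext i
      apply Fin.ext
      simp only [Pi.sub_apply]
      have hvi := (v i).2
      by_cases hi : i = 2
      · subst hi
        rw [hu2]
        rw [show ((v 2 : ℕ) : ℤ) + r - -((t:ℤ) * N) - r = ((v 2 : ℕ) : ℤ) + t * N by ring,
          Int.add_mul_emod_self_right, Int.emod_eq_of_lt (by positivity) (by exact_mod_cast hvi)]
        simp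
      · have hui : u i = 0 := by simp only [hu, if_neg hi]
        rw [hui]
        rw [show ((v i : ℕ) : ℤ) + r - 0 - r = ((v i : ℕ) : ℤ) by ring,
          Int.emod_eq_of_lt (by positivity) (by exact_mod_cast hvi)]
        simp
    simp only [hw]
    rw [h1, h2]
    have h3 : f (t:ℤ) = P := by
      simp only [hf]
      have h4 : ((t:ℤ)).toNat < K := by
        rw [Int.toNat_natCast]
        exact (e P).2
      rw [dif_pos h4]
      have h5 : (⟨((t:ℤ)).toNat, h4⟩ : Fin K) = e P := by
        apply Fin.ext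
        simp [ht]
      rw [h5, Equiv.symm_apply_apply]
    rw [h3]

end Pool.Agent.Work.MP_6eef91_an
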