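import Mathlib
import Pool.Agent.Work.MP_6eef91_an.Local
import Pool.Agent.Work.MP_6eef91_an.Count

set_option autoImplicit false

namespace Pool.Agent.Work.MP_6eef91_an

open Finset

/-- The number of choices at the site `L t + s`. -/
def ncs (m n : ℕ) (E : Env) (q L : ℕ) (t : Fin (m + 3) → Fin q) (s : Fin (m + 3) → Fin L) : ℕ :=
  nc n (E.win ((L * (t 0 : ℕ) + (s 0 : ℕ) : ℕ) : ℤ) ((L * (t 1 : ℕ) + (s 1 : ℕ) : ℕ) : ℤ))

/-- Fills of the block `t`. -/
abbrev Fill (m n : ℕ) (E : Env) (q L : ℕ) (t : Fin (m + 3) → Fin q) : Type :=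
  ∀ s : Fin (m + 3) → Fin L, Fin (ncs m n E q L t s)

lemma fill_congr {m n : ℕ} {E : Env} {q L : ℕ} (z : ∀ t, Fill m n E q L t)
    {t t' : Fin (m + 3) → Fin q} {s s' : Fin (m + 3) → Fin L} (ht : t' = t) (hs : s' = s) :
    (z t' s' : ℕ) = (z t s : ℕ) := by
  subst ht; subst hs; rfl

lemma div_lt' {q L a : ℕ} (h : a < q * L) : a / L < q :=
  Nat.div_lt_of_lt_mul (by rw [mul_comm]; exact h)

lemma mod_lt' {q L a : ℕ} (h : a < q * L) : a % L < L :=
  Nat.mod_lt _ (Nat.pos_of_ne_zero (by rintro rfl; simp at h))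

/-- The choices given by fills, `0` outside the cube. -/
def cfgN {m n : ℕ} {E : Env} {q L : ℕ} (z : ∀ t, Fill m n E q L t) (w : Fin (m + 3) → ℤ) : ℕ :=
  if h : ∀ i, 0 ≤ w i ∧ (w i).toNat < q * L then
    (z (fun i => ⟨(w i).toNat / L, div_lt' (h i).2⟩)
      (fun i => ⟨(w i).toNat % L, mod_lt' (h i).2⟩) : ℕ)
  else 0

lemma cfgN_lt {m n : ℕ} (hn : 2 ≤ n) {E : Env} {q L : ℕ} (z : ∀ t, Fill m n E q L t)
    (w : Fin (m + 3) → ℤ) : cfgN z w < nc n (E.win (w 0) (w 1)) := by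
  unfold cfgN
  split_ifs with h
  · have h1 := (z (fun i => ⟨(w i).toNat / L, div_lt' (h i).2⟩)
      (fun i => ⟨(w i).toNat % L, mod_lt' (h i).2⟩)).2
    have e0 : ((L * ((w 0).toNat / L) + (w 0).toNat % L : ℕ) : ℤ) = w 0 := by
      rw [Nat.div_add_mod]
      exact Int.toNat_of_nonneg (h 0).1
    have e1 : ((L * ((w 1).toNat / L) + (w 1).toNat % L : ℕ) : ℤ) = w 1 := by
      rw [Nat.div_add_mod]
      exact Int.toNat_of_nonneg (h 1).1
    have h2 : ncs m n E q L (fun i => ⟨(w i).toNat / L, div_lt' (h i).2⟩)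
      (fun i => ⟨(w i).toNat % L, mod_lt' (h i).2⟩) = nc n (E.win (w 0) (w 1)) := by
      unfold ncs
      simp only
      rw [e0, e1]
    exact lt_of_lt_of_eq h1 h2
  · exact nc_pos hn _

lemma cfgN_block {m n : ℕ} {E : Env} {q L : ℕ} (z : ∀ t, Fill m n E q L t)
    (t : Fin (m + 3) → Fin q) (s : Fin (m + 3) → Fin L) (w : Fin (m + 3) → ℤ)
    (hw : ∀ i, w i = ((L * (t i : ℕ) + (s i : ℕ) : ℕ) : ℤ)) : cfgN z w = (z t s : ℕ) := by
  have hnat : ∀ i, (w i).toNat = L * (t i : ℕ) + (s i : ℕ) := by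
    intro i; rw [hw, Int.toNat_natCast]
  have h : ∀ i, 0 ≤ w i ∧ (w i).toNat < q * L := by
    intro i
    refine ⟨by rw [hw]; positivity, ?_⟩
    rw [hnat]
    have h1 := (t i).2
    have h2 := (s i).2
    calc L * (t i : ℕ) + (s i : ℕ) < L * (t i : ℕ) + L := by omega
      _ = L * ((t i : ℕ) + 1) := by ring
      _ ≤ L * q := Nat.mul_le_mul_left _ h1
      _ = q * L := mul_comm _ _
  unfold cfgN
  rw [dif_pos h]
  apply fill_congr
  · funext i
    apply Fin.ext
    have h2 := (s i).2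
    show (w i).toNat / L = (t i : ℕ)
    rw [hnat, Nat.mul_add_div (by omega), Nat.div_eq_of_lt h2, add_zero]
  · funext i
    apply Fin.ext
    have h2 := (s i).2
    show (w i).toNat % L = (s i : ℕ)
    rw [hnat, Nat.mul_add_mod, Nat.mod_eq_of_lt h2]

/-- The configuration given by fills. -/
def cfg {m n : ℕ} (hn : 2 ≤ n) {E : Env} {q L : ℕ} (z : ∀ t, Fill m n E q L t) : XS m n :=
  ⟨fun w => (E.win (w 0) (w 1), ⟨cfgN z w, (cfgN_lt hn z w).trans_le (nc_le (by omega) _)⟩),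
    ⟨E, fun w => ⟨rfl, cfgN_lt hn z w⟩⟩⟩

/-- The dichotomy for blocks. -/
lemma blocks {m n : ℕ} (hn : 2 ≤ n) {π : XS m n → Config (m + 3) (Fin n)} {r : ℕ}
    (hr : ∀ (x y : XS m n) (u : Fin (m + 3) → ℤ),
      (∀ v, (∀ i, |v i - u i| ≤ (r : ℤ)) → x.1 v = y.1 v) → π x u = π y u)
    (E : Env) {q l L N : ℕ} (hL : L = l + 2 * r) (hN : N + 2 * r = q * L)
    (hE : ∀ P : (Fin (m + 3) → Fin N) → Fin n, ∃ x : XS m n,
      (∀ v, (x.1 v).1 = E.win (v 0) (v 1)) ∧
      ∀ v : Fin (m + 3) → Fin N, π x (fun i => ((v i : ℕ) : ℤ) + r) = P v) :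
    (∃ t : Fin (m + 3) → Fin q, n ^ (l ^ (m + 3)) ∣ ∏ s : Fin (m + 3) → Fin L, ncs m n E q L t s) ∨
      n ^ (N ^ (m + 3)) ≤ ∏ t : Fin (m + 3) → Fin q,
        ((∏ s : Fin (m + 3) → Fin L, ncs m n E q L t s) - 1) := by
  classical
  have hlt : ∀ (t : Fin q) (σ : Fin l), L * (t : ℕ) + (σ : ℕ) < N := by
    intro t σ
    have h1 := t.2
    have h2 := σ.2
    have h3 : L * (t : ℕ) + L ≤ q * L := by
      calc L * (t : ℕ) + L = L * ((t : ℕ) + 1) := by ring
        _ ≤ L * q := Nat.mul_le_mul_left _ h1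
        _ = q * L := mul_comm _ _
    omega
  set ι : (Fin (m + 3) → Fin q) × (Fin (m + 3) → Fin l) → (Fin (m + 3) → Fin N) :=
    fun p i => ⟨L * (p.1 i : ℕ) + (p.2 i : ℕ), hlt _ _⟩ with hι
  have hιinj : Function.Injective ι := by
    rintro ⟨t, σ⟩ ⟨t', σ'⟩ h
    have h1 : ∀ i, L * (t i : ℕ) + (σ i : ℕ) = L * (t' i : ℕ) + (σ' i : ℕ) := by
      intro i
      have := congrFun h i
      simp only [hι, Fin.mk.injEq] at this
      exact this
    have h2 : ∀ i, (t i : ℕ) = (t' i : ℕ) ∧ (σ i : ℕ) = (σ' i : ℕ) := by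
      intro i
      have a1 := (σ i).2
      have a2 := (σ' i).2
      have a3 := h1 i
      have a4 : (L * (t i : ℕ) + (σ i : ℕ)) / L = (t i : ℕ) := by
        rw [Nat.mul_add_div (by omega), Nat.div_eq_of_lt (by omega), add_zero]
      have a5 : (L * (t' i : ℕ) + (σ' i : ℕ)) / L = (t' i : ℕ) := by
        rw [Nat.mul_add_div (by omega), Nat.div_eq_of_lt (by omega), add_zero]
      have a6 : (t i : ℕ) = (t' i : ℕ) := by rw [← a4, a3, a5]
      refine ⟨a6, ?_⟩
      rw [a6] at a3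
      omega
    refine Prod.ext (funext fun i => Fin.ext (h2 i).1) (funext fun i => Fin.ext (h2 i).2)
  set F : (∀ t, Fill m n E q L t) → ((Fin (m + 3) → Fin N) → Fin n) := fun z v =>
    π (cfg hn z) (fun i => ((v i : ℕ) : ℤ) + r) with hF
  have hloc : ∀ (z z' : ∀ t, Fill m n E q L t) (t : Fin (m + 3) → Fin q)
      (σ : Fin (m + 3) → Fin l), z t = z' t → F z (ι (t, σ)) = F z' (ι (t, σ)) := by
    intro z z' t σ hzt
    simp only [hF]
    apply hr
    intro v hv
    have hs : ∀ i, 0 ≤ v i - L * (t i : ℕ) ∧ v i - L * (t i : ℕ) < L := by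
      intro i
      have h1 := hv i
      simp only [hι] at h1
      push_cast at h1
      have h2 := (σ i).2
      rw [abs_le] at h1
      constructor
      · have : (0:ℤ) ≤ (σ i : ℕ) := by positivity
        linarith [h1.1]
      · have : ((σ i : ℕ) : ℤ) < l := by exact_mod_cast h2
        have hL' : (L:ℤ) = l + 2 * r := by exact_mod_cast hL
        rw [hL'] at h1 ⊢
        linarith [h1.2]
    set s : Fin (m + 3) → Fin L := fun i => ⟨(v i - L * (t i : ℕ)).toNat, by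
      have := hs i
      omega⟩ with hsdef
    have hw : ∀ i, v i = ((L * (t i : ℕ) + (s i : ℕ) : ℕ) : ℤ) := by
      intro i
      have h1 := (hs i).1
      have h2 : ((s i : ℕ) : ℤ) = v i - L * (t i : ℕ) := Int.toNat_of_nonneg h1
      push_cast
      rw [h2]
      ring
    have h1 : cfgN z v = cfgN z' v := by
      rw [cfgN_block z t s v hw, cfgN_block z' t s v hw, hzt]
    simp only [cfg]
    refine Prod.ext rfl ?_
    exact Fin.ext h1
  have hsurj : Function.Surjective F := by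
    intro P
    obtain ⟨x, hx1, hx2⟩ := hE P
    have hxlt : ∀ v, ((x.1 v).2 : ℕ) < nc n (E.win (v 0) (v 1)) := by
      intro v
      obtain ⟨E', hE'⟩ := x.2
      rw [← hx1 v]
      exact (hE' v).2
    set z : ∀ t, Fill m n E q L t := fun t s =>
      ⟨((x.1 (fun i => ((L * (t i : ℕ) + (s i : ℕ) : ℕ) : ℤ))).2 : ℕ), hxlt _⟩ with hz
    refine ⟨z, ?_⟩
    funext v
    rw [← hx2 v]
    simp only [hF]
    apply hr
    intro u hu
    have hb : ∀ i, 0 ≤ u i ∧ (u i).toNat < q * L := by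
      intro i
      have h1 := hu i
      have h2 := (v i).2
      rw [abs_le] at h1
      have h3 : (0:ℤ) ≤ ((v i : ℕ) : ℤ) := by positivity
      have h4 : ((v i : ℕ) : ℤ) < N := by exact_mod_cast h2
      have h5 : (N:ℤ) + 2 * r = ((q * L : ℕ) : ℤ) := by exact_mod_cast hN
      constructor
      · linarith [h1.1]
      · have h6 : u i < ((q * L : ℕ) : ℤ) := by linarith [h1.2]
        have h7 : 0 ≤ u i := by linarith [h1.1]
        omega
    set t : Fin (m + 3) → Fin q := fun i => ⟨(u i).toNat / L, div_lt' (hb i).2⟩ with ht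
    set s : Fin (m + 3) → Fin L := fun i => ⟨(u i).toNat % L, mod_lt' (hb i).2⟩ with hs
    have hw : ∀ i, u i = ((L * (t i : ℕ) + (s i : ℕ) : ℕ) : ℤ) := by
      intro i
      simp only [ht, hs]
      rw [Nat.div_add_mod, Int.toNat_of_nonneg (hb i).1]
    have hu' : (fun i => ((L * (t i : ℕ) + (s i : ℕ) : ℕ) : ℤ)) = u := by
      funext i
      exact (hw i).symm
    have h1 : cfgN z u = ((x.1 u).2 : ℕ) := by
      rw [cfgN_block z t s u hw]
      simp only [hz]
      rw [hu']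
    simp only [cfg]
    refine Prod.ext (hx1 u).symm ?_
    exact Fin.ext h1
  have : ∀ t, Nonempty (Fill m n E q L t) := fun t =>
    ⟨fun s => ⟨0, nc_pos hn _⟩⟩
  have key := abstract_blocks (Ω := Fill m n E q L) ι hιinj F hloc hsurj
  simpa only [Fintype.card_pi, Fintype.card_fin, Fintype.card_fun, prod_const, card_univ] using key

end Pool.Agent.Work.MP_6eef91_an
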