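import Mathlib
import Pool.Agent.Work.MP_6eef91_an.Env

set_option autoImplicit false

namespace Pool.Agent.Work.MP_6eef91_an

open Finset

/-- `log 2 / log 6`. -/
noncomputable def th : ℝ := Real.log 2 / Real.log 6

lemma log6_pos : 0 < Real.log 6 := Real.log_pos (by norm_num)

lemma th_pos : 0 < th := div_pos (Real.log_pos (by norm_num)) log6_pos

lemma th_lt : th < 1 := by
  unfold th
  rw [div_lt_one log6_pos]
  exact Real.log_lt_log (by norm_num) (by norm_num)

/-- The slopes of the rows. -/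
noncomputable def al (j : ℤ) : ℝ := Real.exp (Real.log 6 * Int.fract ((j:ℝ) * th))

lemma al_ge (j : ℤ) : 1 ≤ al j := by
  unfold al
  rw [← Real.exp_zero]
  apply Real.exp_le_exp.mpr
  exact mul_nonneg log6_pos.le (Int.fract_nonneg _)

lemma al_lt (j : ℤ) : al j < 6 := by
  unfold al
  calc Real.exp (Real.log 6 * Int.fract ((j:ℝ) * th)) < Real.exp (Real.log 6 * 1) := by
        apply Real.exp_lt_exp.mpr
        exact mul_lt_mul_of_pos_left (Int.fract_lt_one _) log6_pos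
    _ = 6 := by rw [mul_one, Real.exp_log (by norm_num)]

/-- The types of the rows. -/
noncomputable def tyB (j : ℤ) : Bool := decide (1 ≤ Int.fract ((j:ℝ) * th) + th)

lemma al_succ_false {j : ℤ} (h : tyB j = false) : al (j + 1) = 2 * al j := by
  unfold tyB at h
  rw [decide_eq_false_iff_not, not_le] at h
  have h1 : Int.fract (((j + 1 : ℤ) : ℝ) * th) = Int.fract ((j:ℝ) * th) + th := by
    rw [Int.fract_eq_iff]
    refine ⟨by linarith [Int.fract_nonneg ((j:ℝ) * th), th_pos], h, ⌊(j:ℝ) * th⌋, ?_⟩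
    have := Int.self_sub_fract ((j:ℝ) * th)
    push_cast
    linarith
  unfold al
  rw [h1, mul_add, Real.exp_add]
  have h2 : Real.log 6 * th = Real.log 2 := by
    unfold th
    have := log6_pos
    field_simp
  rw [h2, Real.exp_log (by norm_num)]
  ring

lemma al_succ_true {j : ℤ} (h : tyB j = true) : al (j + 1) = al j / 3 := by
  unfold tyB at h
  rw [decide_eq_true_eq] at h
  have h1 : Int.fract (((j + 1 : ℤ) : ℝ) * th) = Int.fract ((j:ℝ) * th) + th - 1 := by
    rw [Int.fract_eq_iff]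
    refine ⟨by linarith, by linarith [Int.fract_lt_one ((j:ℝ) * th), th_lt],
      ⌊(j:ℝ) * th⌋ + 1, ?_⟩
    have := Int.self_sub_fract ((j:ℝ) * th)
    push_cast
    linarith
  unfold al
  rw [h1, mul_sub, mul_add, Real.exp_sub, Real.exp_add]
  have h2 : Real.log 6 * th = Real.log 2 := by
    unfold th
    have := log6_pos
    field_simp
  rw [h2, Real.exp_log (by norm_num), mul_one, Real.exp_log (by norm_num)]
  ring

/-- Digits. -/
noncomputable def dgB (i j : ℤ) : ℤ := ⌊((i:ℝ) + 1) * al j⌋ - ⌊(i:ℝ) * al j⌋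

lemma dgB_ge (i j : ℤ) : 1 ≤ dgB i j := by
  unfold dgB
  have h1 : ⌊(i:ℝ) * al j⌋ + 1 ≤ ⌊((i:ℝ) + 1) * al j⌋ := by
    rw [Int.le_floor]
    push_cast
    have := Int.floor_le ((i:ℝ) * al j)
    have := al_ge j
    linarith
  linarith

lemma dgB_le (i j : ℤ) : dgB i j ≤ 6 := by
  unfold dgB
  have h1 : ⌊((i:ℝ) + 1) * al j⌋ < ⌊(i:ℝ) * al j⌋ + 7 := by
    rw [Int.floor_lt]
    push_cast
    have := Int.lt_floor_add_one ((i:ℝ) * al j)
    have := al_lt j
    linarith
  linarith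

/-- Carries. -/
noncomputable def crB (i j : ℤ) : ℤ :=
  if tyB j then ⌊(i:ℝ) * al j⌋ - 3 * ⌊(i:ℝ) * al (j + 1)⌋
  else 2 * ⌊(i:ℝ) * al j⌋ - ⌊(i:ℝ) * al (j + 1)⌋ + 1

lemma crB_bounds (i j : ℤ) : 0 ≤ crB i j ∧ crB i j ≤ 2 := by
  unfold crB
  rcases Bool.eq_false_or_eq_true (tyB j) with h | h
  · rw [if_pos h, al_succ_true h]
    have h1 := Int.floor_le ((i:ℝ) * al j)
    have h2 := Int.lt_floor_add_one ((i:ℝ) * al j)
    have h3 := Int.floor_le ((i:ℝ) * (al j / 3))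
    have h4 := Int.lt_floor_add_one ((i:ℝ) * (al j / 3))
    have h5 : (i:ℝ) * (al j / 3) = ((i:ℝ) * al j) / 3 := by ring
    rw [h5] at h3 h4 ⊢
    constructor
    · have : ((3 * ⌊(i:ℝ) * al j / 3⌋ : ℤ) : ℝ) < ((⌊(i:ℝ) * al j⌋ + 1 : ℤ) : ℝ) := by
        push_cast; linarith
      have := Int.cast_lt.mp this
      linarith
    · have : ((⌊(i:ℝ) * al j⌋ : ℤ) : ℝ) < ((3 * ⌊(i:ℝ) * al j / 3⌋ + 3 : ℤ) : ℝ) := by
        push_cast; linarith
      have := Int.cast_lt.mp this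
      linarith
  · rw [if_neg (by rw [h]; simp), al_succ_false h]
    have h1 := Int.floor_le ((i:ℝ) * al j)
    have h2 := Int.lt_floor_add_one ((i:ℝ) * al j)
    have h3 := Int.floor_le ((i:ℝ) * (2 * al j))
    have h4 := Int.lt_floor_add_one ((i:ℝ) * (2 * al j))
    have h5 : (i:ℝ) * (2 * al j) = 2 * ((i:ℝ) * al j) := by ring
    rw [h5] at h3 h4 ⊢
    constructor
    · have : ((⌊2 * ((i:ℝ) * al j)⌋ : ℤ) : ℝ) < ((2 * ⌊(i:ℝ) * al j⌋ + 2 : ℤ) : ℝ) := by
        push_cast; linarith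
      have := Int.cast_lt.mp this
      linarith
    · have : ((2 * ⌊(i:ℝ) * al j⌋ : ℤ) : ℝ) < ((⌊2 * ((i:ℝ) * al j)⌋ + 1 : ℤ) : ℝ) := by
        push_cast; linarith
      have := Int.cast_lt.mp this
      linarith

/-- The Beatty environment. -/
noncomputable def EB : Env where
  ty := tyB
  cell i j := (⟨(dgB i j - 1).toNat, by have := dgB_ge i j; have := dgB_le i j; omega⟩,
    ⟨(crB i j).toNat, by have := crB_bounds i j; omega⟩)

lemma dig_EB (i j : ℤ) : dig (EB.cell i j) = dgB i j := by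
  have := dgB_ge i j
  unfold dig EB
  simp only
  omega

lemma car_EB (i j : ℤ) : car (EB.cell i j) = crB i j := by
  have := crB_bounds i j
  unfold car EB
  simp only
  omega

lemma rel_EB (i j : ℤ) : Rel (EB.win i j) := by
  unfold Rel Env.win
  simp only [dig_EB, car_EB]
  have hty : EB.ty j = tyB j := rfl
  rw [hty]
  unfold dgB crB
  rcases Bool.eq_false_or_eq_true (tyB j) with h | h
  · simp only [h, if_true]
    push_cast
    ring
  · simp only [h, Bool.false_eq_true, if_false]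
    push_cast
    ring

lemma rowProd_EB {n : ℕ} (hn : Even n) (i₀ : ℤ) (L : ℕ) (j : ℤ) :
    rowProd n EB i₀ L j * al (j + 1) ^ L = (n:ℝ) ^ L * al j ^ L := by
  obtain ⟨k, hk⟩ := hn
  have hty : ∀ i : ℤ, (EB.win i j).1 = tyB j := fun i => rfl
  rcases Bool.eq_false_or_eq_true (tyB j) with h | h
  · have h1 : rowProd n EB i₀ L j = (3 * (n:ℝ)) ^ L := by
      unfold rowProd nc
      have : ∀ i ∈ range L, (((if Rel (EB.win (i₀ + (i:ℕ)) j) then
          (if (EB.win (i₀ + (i:ℕ)) j).1 then 3 * n else n / 2) else 1 : ℕ)) : ℝ) = 3 * (n:ℝ) := by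
        intro i _
        rw [if_pos (rel_EB _ _), hty, if_pos h]
        push_cast; ring
      rw [prod_congr rfl this, prod_const, card_range]
    rw [h1, al_succ_true h, ← mul_pow, ← mul_pow]
    congr 1
    ring
  · have h1 : rowProd n EB i₀ L j = ((n:ℝ) / 2) ^ L := by
      unfold rowProd nc
      have : ∀ i ∈ range L, (((if Rel (EB.win (i₀ + (i:ℕ)) j) then
          (if (EB.win (i₀ + (i:ℕ)) j).1 then 3 * n else n / 2) else 1 : ℕ)) : ℝ) = (n:ℝ) / 2 := by
        intro i _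
        rw [if_pos (rel_EB _ _), hty, if_neg (by rw [h]; simp)]
        have e1 : n / 2 = k := by omega
        rw [e1, hk]
        push_cast; ring
      rw [prod_congr rfl this, prod_const, card_range]
    rw [h1, al_succ_false h, ← mul_pow, ← mul_pow]
    congr 1
    ring

/-- Lower bound for the number of choices over a square for the Beatty environment. -/
lemma square_lower {n : ℕ} (hn : Even n) (i₀ j₀ : ℤ) (L : ℕ) :
    (n:ℝ) ^ (L ^ 2) / 6 ^ L ≤ ∏ j ∈ range L, rowProd n EB i₀ L (j₀ + (j:ℕ)) := by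
  have hind : ∀ M : ℕ, (∏ j ∈ range M, rowProd n EB i₀ L (j₀ + (j:ℕ))) * al (j₀ + M) ^ L =
      ((n:ℝ) ^ L) ^ M * al j₀ ^ L := by
    intro M
    induction M with
    | zero => simp
    | succ M ih =>
      rw [prod_range_succ]
      have he : (j₀ + (M + 1 : ℕ) : ℤ) = (j₀ + M) + 1 := by push_cast; ring
      rw [he, mul_assoc, rowProd_EB hn]
      calc (∏ j ∈ range M, rowProd n EB i₀ L (j₀ + (j:ℕ))) * ((n:ℝ) ^ L * al (j₀ + M) ^ L)
          = (n:ℝ) ^ L * ((∏ j ∈ range M, rowProd n EB i₀ L (j₀ + (j:ℕ))) * al (j₀ + M) ^ L) := by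
            ring
        _ = _ := by rw [ih, pow_succ]; ring
  have h := hind L
  rw [div_le_iff₀ (by positivity)]
  have hP : 0 ≤ ∏ j ∈ range L, rowProd n EB i₀ L (j₀ + (j:ℕ)) :=
    prod_nonneg fun _ _ => rowProd_nonneg _ _ _ _ _
  have h1 : (1:ℝ) ≤ al j₀ ^ L := one_le_pow₀ (al_ge j₀)
  have h2 : al (j₀ + L) ^ L ≤ 6 ^ L := by
    have := (al_lt (j₀ + L)).le
    have := al_ge (j₀ + L)
    gcongr
  calc (n:ℝ) ^ (L ^ 2) = ((n:ℝ) ^ L) ^ L * 1 := by rw [← pow_mul, sq, mul_one]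
    _ ≤ ((n:ℝ) ^ L) ^ L * al j₀ ^ L := by gcongr
    _ = (∏ j ∈ range L, rowProd n EB i₀ L (j₀ + (j:ℕ))) * al (j₀ + L) ^ L := h.symm
    _ ≤ _ := by gcongr

end Pool.Agent.Work.MP_6eef91_an
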