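import Mathlib
import Pool.Agent.Work.MP_6eef91_an.Sys
import Pool.Agent.Work.MP_6eef91_an.Beatty

set_option autoImplicit false

namespace Pool.Agent.Work.MP_6eef91_an

open Finset

/-- A product over a cube of a function of the first two coordinates. -/
lemma cube_prod {M : Type*} [CommMonoid M] (m N : ℕ) (f : Fin N → Fin N → M) :
    ∏ v : Fin (m + 3) → Fin N, f (v 0) (v 1) = (∏ j : Fin N, ∏ i : Fin N, f i j) ^ (N ^ (m + 1)) := by
  rw [← (Fin.consEquiv (fun _ : Fin (m + 3) => Fin N)).prod_comp, Fintype.prod_prod_type]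
  have h1 : ∀ i : Fin N, ∏ w : Fin (m + 2) → Fin N,
      f (Fin.consEquiv (fun _ : Fin (m + 3) => Fin N) (i, w) 0)
        (Fin.consEquiv (fun _ : Fin (m + 3) => Fin N) (i, w) 1) =
      (∏ j : Fin N, f i j) ^ (N ^ (m + 1)) := by
    intro i
    have h2 : ∀ w : Fin (m + 2) → Fin N,
        f (Fin.consEquiv (fun _ : Fin (m + 3) => Fin N) (i, w) 0)
        (Fin.consEquiv (fun _ : Fin (m + 3) => Fin N) (i, w) 1) = f i (w 0) := by
      intro w
      rfl
    rw [prod_congr rfl (fun w _ => h2 w)]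
    rw [← (Fin.consEquiv (fun _ : Fin (m + 2) => Fin N)).prod_comp, Fintype.prod_prod_type]
    have h3 : ∀ j : Fin N, ∏ w : Fin (m + 1) → Fin N,
        f i (Fin.consEquiv (fun _ : Fin (m + 2) => Fin N) (j, w) 0) = f i j ^ (N ^ (m + 1)) := by
      intro j
      have h4 : ∀ w : Fin (m + 1) → Fin N,
        f i (Fin.consEquiv (fun _ : Fin (m + 2) => Fin N) (j, w) 0) = f i j := fun w => rfl
      rw [prod_congr rfl (fun w _ => h4 w), prod_const, card_univ]
      simp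
    rw [prod_congr rfl (fun j _ => h3 j), prod_pow]
  rw [prod_congr rfl (fun i _ => h1 i), prod_pow, prod_comm]

lemma range_prod_eq {N : ℕ} (n : ℕ) (E : Env) (i₀ j₀ : ℤ) :
    ((∏ j : Fin N, ∏ i : Fin N, nc n (E.win (i₀ + ((i : ℕ) : ℤ)) (j₀ + ((j : ℕ) : ℤ))) : ℕ) : ℝ) =
      ∏ j ∈ range N, rowProd n E i₀ N (j₀ + (j:ℕ)) := by
  unfold rowProd
  push_cast
  rw [← Fin.prod_univ_eq_prod_range (fun j => ∏ i ∈ range N,
    (nc n (E.win (i₀ + ((i : ℕ) : ℤ)) (j₀ + ((j : ℕ) : ℤ))) : ℝ)) N]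
  refine prod_congr rfl fun j _ => ?_
  rw [← Fin.prod_univ_eq_prod_range (fun i =>
    (nc n (E.win (i₀ + ((i : ℕ) : ℤ)) (j₀ + ((j : ℕ) : ℤ))) : ℝ)) N]

/-- Upper bound over cubes. -/
lemma cube_upper {m n : ℕ} (hn : 10 ^ 9 ≤ n) (E : Env) (i₀ j₀ : ℤ) (N : ℕ) :
    ((∏ v : Fin (m + 3) → Fin N,
      nc n (E.win (i₀ + ((v 0 : ℕ) : ℤ)) (j₀ + ((v 1 : ℕ) : ℤ))) : ℕ) : ℝ) ≤
      (n:ℝ) ^ (N ^ (m + 3)) * 45 ^ (N ^ (m + 2)) := by
  rw [cube_prod m N (fun i j => nc n (E.win (i₀ + ((i : ℕ) : ℤ)) (j₀ + ((j : ℕ) : ℤ))))]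
  rw [Nat.cast_pow, range_prod_eq]
  have h := square_upper hn E i₀ j₀ N
  have h0 : 0 ≤ ∏ j ∈ range N, rowProd n E i₀ N (j₀ + (j:ℕ)) :=
    prod_nonneg fun _ _ => rowProd_nonneg _ _ _ _ _
  calc (∏ j ∈ range N, rowProd n E i₀ N (j₀ + (j:ℕ))) ^ (N ^ (m + 1))
      ≤ ((n:ℝ) ^ (N ^ 2) * 45 ^ N) ^ (N ^ (m + 1)) := pow_le_pow_left₀ h0 h _
    _ = (n:ℝ) ^ (N ^ (m + 3)) * 45 ^ (N ^ (m + 2)) := by
        rw [mul_pow, ← pow_mul, ← pow_mul]
        congr 2
        · ring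
        · ring

/-- Lower bound over cubes. -/
lemma cube_lower {m n : ℕ} (hn : Even n) (N : ℕ) :
    (n:ℝ) ^ (N ^ (m + 3)) / 6 ^ (N ^ (m + 2)) ≤ ((∏ v : Fin (m + 3) → Fin N,
      nc n (EB.win (0 + ((v 0 : ℕ) : ℤ)) (0 + ((v 1 : ℕ) : ℤ))) : ℕ) : ℝ) := by
  rw [cube_prod m N (fun i j => nc n (EB.win (0 + ((i : ℕ) : ℤ)) (0 + ((j : ℕ) : ℤ))))]
  rw [Nat.cast_pow, range_prod_eq]
  have h := square_lower hn 0 0 N
  calc (n:ℝ) ^ (N ^ (m + 3)) / 6 ^ (N ^ (m + 2)) = ((n:ℝ) ^ (N ^ 2) / 6 ^ N) ^ (N ^ (m + 1)) := by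
        rw [div_pow, ← pow_mul, ← pow_mul]
        congr 2
        · ring
        · ring
    _ ≤ _ := pow_le_pow_left₀ (by positivity) h _

/-- Patterns with a given environment. -/
def patE {m n : ℕ} (E : Env) (N : ℕ) : Finset ((Fin (m + 3) → Fin N) → Sym n) :=
  Fintype.piFinset fun v => ({E.win ((v 0 : ℕ) : ℤ) ((v 1 : ℕ) : ℤ)} : Finset Win) ×ˢ
    (univ.filter fun z : Fin (3 * n) => (z : ℕ) < nc n (E.win ((v 0 : ℕ) : ℤ) ((v 1 : ℕ) : ℤ)))

lemma card_patE {m n : ℕ} (hn : 1 ≤ n) (E : Env) (N : ℕ) :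
    (patE (m := m) (n := n) E N).card = ∏ v : Fin (m + 3) → Fin N,
      nc n (E.win (0 + ((v 0 : ℕ) : ℤ)) (0 + ((v 1 : ℕ) : ℤ))) := by
  unfold patE
  rw [Fintype.card_piFinset]
  refine prod_congr rfl fun v _ => ?_
  rw [card_product, card_singleton, one_mul, Fin.card_filter_val_lt, zero_add, zero_add]
  exact min_eq_right (nc_le hn _)

lemma mem_patE {m n : ℕ} {E : Env} {N : ℕ} {p : (Fin (m + 3) → Fin N) → Sym n} :
    p ∈ patE E N ↔ ∀ v, (p v).1 = E.win ((v 0 : ℕ) : ℤ) ((v 1 : ℕ) : ℤ) ∧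
      ((p v).2 : ℕ) < nc n (E.win ((v 0 : ℕ) : ℤ) ((v 1 : ℕ) : ℤ)) := by
  unfold patE
  rw [Fintype.mem_piFinset]
  refine forall_congr' fun v => ?_
  rw [mem_product, mem_singleton, mem_filter]
  simp

/-- Finite environments. -/
abbrev FEnv (N : ℕ) : Type := (Fin N → Bool) × (Fin (N + 1) × Fin (N + 1) → Cell)

/-- Extension of a finite environment. -/
def FEnv.ext {N : ℕ} (e : FEnv N) : Env where
  ty j := if h : j.toNat < N then e.1 ⟨j.toNat, h⟩ else false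
  cell i j := if h : i.toNat < N + 1 ∧ j.toNat < N + 1 then e.2 (⟨i.toNat, h.1⟩, ⟨j.toNat, h.2⟩)
    else (0, 0)

/-- Restriction of an environment. -/
def Env.restr (E : Env) (N : ℕ) : FEnv N :=
  (fun j => E.ty ((j : ℕ) : ℤ), fun q => E.cell ((q.1 : ℕ) : ℤ) ((q.2 : ℕ) : ℤ))

lemma restr_ext_win (E : Env) (N : ℕ) (i j : Fin N) :
    (E.restr N).ext.win ((i : ℕ) : ℤ) ((j : ℕ) : ℤ) = E.win ((i : ℕ) : ℤ) ((j : ℕ) : ℤ) := by
  have hi := i.2
  have hj := j.2
  have e1 : (((i : ℕ) : ℤ) + 1).toNat = (i : ℕ) + 1 := by omega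
  have e2 : (((j : ℕ) : ℤ) + 1).toNat = (j : ℕ) + 1 := by omega
  unfold Env.restr FEnv.ext Env.win
  simp only [Int.toNat_natCast]
  rw [dif_pos hj, dif_pos (⟨by omega, by omega⟩ : (i:ℕ) < N + 1 ∧ (j:ℕ) < N + 1),
    dif_pos (⟨by omega, by omega⟩ : (((i : ℕ) : ℤ) + 1).toNat < N + 1 ∧ (j:ℕ) < N + 1),
    dif_pos (⟨by omega, by omega⟩ : (i:ℕ) < N + 1 ∧ (((j : ℕ) : ℤ) + 1).toNat < N + 1)]
  have h1 : (((((i : ℕ) : ℤ) + 1).toNat : ℕ) : ℤ) = ((i : ℕ) : ℤ) + 1 := by omega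
  have h2 : (((((j : ℕ) : ℤ) + 1).toNat : ℕ) : ℤ) = ((j : ℕ) : ℤ) + 1 := by omega
  rw [h1, h2]

open Classical in
lemma cubePatterns_subset {m n : ℕ} (N : ℕ) :
    cubePatterns (XS m n) N ⊆
      ↑((univ : Finset (FEnv N)).biUnion fun e => patE (m := m) (n := n) e.ext N) := by
  rintro p ⟨x, ⟨E, hE⟩, hp⟩
  rw [mem_coe, mem_biUnion]
  refine ⟨E.restr N, mem_univ _, ?_⟩
  rw [mem_patE]
  intro v
  rw [restr_ext_win, hp v]
  have := hE (fun i => ((v i : ℕ) : ℤ))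
  exact ⟨this.1, by rw [← this.1]; exact this.2⟩

lemma patE_subset_cubePatterns {m n : ℕ} (hn : 2 ≤ n) (E : Env) (N : ℕ) :
    (↑(patE (m := m) (n := n) E N) : Set _) ⊆ cubePatterns (XS m n) N := by
  intro p hp
  rw [mem_coe, mem_patE] at hp
  have h3n : 0 < 3 * n := by omega
  refine ⟨fun w => if h : ∀ i, 0 ≤ w i ∧ (w i).toNat < N then
      p (fun i => ⟨(w i).toNat, (h i).2⟩) else (E.win (w 0) (w 1), ⟨0, h3n⟩), ⟨E, fun w => ?_⟩, ?_⟩
  · by_cases h : ∀ i, 0 ≤ w i ∧ (w i).toNat < N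
    · simp only [dif_pos h]
      have := hp (fun i => ⟨(w i).toNat, (h i).2⟩)
      simp only at this
      have h0 : (((w 0).toNat : ℕ) : ℤ) = w 0 := Int.toNat_of_nonneg (h 0).1
      have h1 : (((w 1).toNat : ℕ) : ℤ) = w 1 := Int.toNat_of_nonneg (h 1).1
      rw [h0, h1] at this
      exact ⟨this.1, by rw [this.1]; exact this.2⟩
    · simp only [dif_neg h]
      exact ⟨trivial, nc_pos hn _⟩
  · intro v
    have h : ∀ i, (0:ℤ) ≤ ((v i : ℕ) : ℤ) ∧ (((v i : ℕ) : ℤ)).toNat < N := by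
      intro i
      exact ⟨by positivity, by rw [Int.toNat_natCast]; exact (v i).2⟩
    simp only [dif_pos h]
    congr 1

open Classical in
theorem entropy_XS (m : ℕ) {n : ℕ} (hn : 10 ^ 9 ≤ n) (hev : Even n) :
    HasEntropy (XS m n) (Real.log n) := by
  have hn' : (10:ℝ) ^ 9 ≤ n := by exact_mod_cast hn
  have hnpos : (0:ℝ) < n := lt_of_lt_of_le (by norm_num) hn'
  unfold HasEntropy
  set C : ℝ := Real.log 45 + Real.log 2 + 4 * Real.log 18 with hC
  -- lower and upper bounds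
  have hlow : ∀ N : ℕ, 1 ≤ N → Real.log n - Real.log 6 / N ≤
      Real.log ((cubePatterns (XS m n) N).ncard : ℝ) / (N : ℝ) ^ (m + 3) := by
    intro N hN
    have hN' : (0:ℝ) < N := by exact_mod_cast hN
    have h1 : (patE (m := m) (n := n) EB N).card ≤ (cubePatterns (XS m n) N).ncard := by
      rw [← Set.ncard_coe_finset]
      exact Set.ncard_le_ncard (patE_subset_cubePatterns (by omega) EB N)
    have h2 : (n:ℝ) ^ (N ^ (m + 3)) / 6 ^ (N ^ (m + 2)) ≤ ((cubePatterns (XS m n) N).ncard : ℝ) := by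
      refine (cube_lower hev N).trans ?_
      rw [← card_patE (by omega)]
      exact_mod_cast h1
    have h3 := Real.log_le_log (by positivity) h2
    rw [Real.log_div (by positivity) (by positivity), Real.log_pow, Real.log_pow] at h3
    rw [le_div_iff₀ (by positivity)]
    refine le_trans (le_of_eq ?_) h3
    push_cast
    field_simp
    ring
  have hup : ∀ N : ℕ, 1 ≤ N → Real.log ((cubePatterns (XS m n) N).ncard : ℝ) / (N : ℝ) ^ (m + 3) ≤
      Real.log n + C / N := by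
    intro N hN
    have hN' : (0:ℝ) < N := by exact_mod_cast hN
    have hN1 : (1:ℝ) ≤ N := by exact_mod_cast hN
    have h1 : (cubePatterns (XS m n) N).ncard ≤
        ∑ e : FEnv N, (patE (m := m) (n := n) e.ext N).card := by
      calc (cubePatterns (XS m n) N).ncard ≤
          (((univ : Finset (FEnv N)).biUnion fun e => patE (m := m) (n := n) e.ext N)).card := by
            rw [← Set.ncard_coe_finset]
            exact Set.ncard_le_ncard (cubePatterns_subset N) (Finset.finite_toSet _)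
        _ ≤ _ := card_biUnion_le
    have h2 : ((cubePatterns (XS m n) N).ncard : ℝ) ≤
        (2 ^ N * 18 ^ ((N + 1) * (N + 1))) * ((n:ℝ) ^ (N ^ (m + 3)) * 45 ^ (N ^ (m + 2))) := by
      calc ((cubePatterns (XS m n) N).ncard : ℝ) ≤
          ((∑ e : FEnv N, (patE (m := m) (n := n) e.ext N).card : ℕ) : ℝ) := by exact_mod_cast h1
        _ = ∑ e : FEnv N, ((patE (m := m) (n := n) e.ext N).card : ℝ) := by push_cast; rfl
        _ ≤ ∑ _e : FEnv N, ((n:ℝ) ^ (N ^ (m + 3)) * 45 ^ (N ^ (m + 2))) := by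
            apply sum_le_sum
            intro e _
            rw [card_patE (by omega)]
            exact cube_upper hn _ 0 0 N
        _ = _ := by
            rw [sum_const, card_univ, nsmul_eq_mul]
            congr 1
            simp [Fintype.card_prod]
    have hpos : (0:ℝ) < ((cubePatterns (XS m n) N).ncard : ℝ) := by
      have h1 : (patE (m := m) (n := n) EB N).card ≤ (cubePatterns (XS m n) N).ncard := by
        rw [← Set.ncard_coe_finset]
        exact Set.ncard_le_ncard (patE_subset_cubePatterns (by omega) EB N)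
      have h2 : (n:ℝ) ^ (N ^ (m + 3)) / 6 ^ (N ^ (m + 2)) ≤
          ((cubePatterns (XS m n) N).ncard : ℝ) := by
        refine (cube_lower hev N).trans ?_
        rw [← card_patE (by omega)]
        exact_mod_cast h1
      exact lt_of_lt_of_le (by positivity) h2
    have h3 := Real.log_le_log hpos h2
    rw [Real.log_mul (by positivity) (by positivity), Real.log_mul (by positivity) (by positivity),
      Real.log_mul (by positivity) (by positivity), Real.log_pow, Real.log_pow, Real.log_pow,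
      Real.log_pow] at h3
    rw [div_le_iff₀ (by positivity)]
    refine h3.trans ?_
    have hl2 : 0 ≤ Real.log 2 := Real.log_nonneg (by norm_num)
    have hl18 : 0 ≤ Real.log 18 := Real.log_nonneg (by norm_num)
    have hl45 : 0 ≤ Real.log 45 := Real.log_nonneg (by norm_num)
    have e1 : (Real.log n + C / N) * (N:ℝ) ^ (m + 3) =
        Real.log n * (N:ℝ) ^ (m + 3) + C * (N:ℝ) ^ (m + 2) := by
      field_simp
      ring
    rw [e1, hC]
    push_cast
    have hpw : (N:ℝ) ^ 2 ≤ (N:ℝ) ^ (m + 2) := pow_le_pow_right₀ hN1 (by omega)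
    have hpw1 : (N:ℝ) ≤ (N:ℝ) ^ (m + 2) := by
      calc (N:ℝ) = (N:ℝ) ^ 1 := (pow_one _).symm
        _ ≤ _ := pow_le_pow_right₀ hN1 (by omega)
    have hpw2 : ((N:ℝ) + 1) * ((N:ℝ) + 1) ≤ 4 * (N:ℝ) ^ (m + 2) := by nlinarith
    nlinarith [mul_le_mul_of_nonneg_right hpw1 hl2, mul_le_mul_of_nonneg_right hpw2 hl18]
  have t1 : Filter.Tendsto (fun N : ℕ => Real.log n - Real.log 6 / N) Filter.atTop
      (nhds (Real.log n)) := by
    have := (tendsto_const_div_atTop_nhds_zero_nat (Real.log 6)).const_sub (Real.log n)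
    simpa using this
  have t2 : Filter.Tendsto (fun N : ℕ => Real.log n + C / N) Filter.atTop (nhds (Real.log n)) := by
    have := (tendsto_const_div_atTop_nhds_zero_nat C).const_add (Real.log n)
    simpa using this
  apply tendsto_of_tendsto_of_tendsto_of_le_of_le' t1 t2
  · filter_upwards [Filter.eventually_ge_atTop 1] with N hN
    exact hlow N hN
  · filter_upwards [Filter.eventually_ge_atTop 1] with N hN
    exact hup N hN

end Pool.Agent.Work.MP_6eef91_an
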