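import Mathlib
import Pool.Agent.Work.MP_6eef91_an.Blocks
import Pool.Agent.Work.MP_6eef91_an.Entropy

set_option autoImplicit false

namespace Pool.Agent.Work.MP_6eef91_an

open Finset

/-- The product of the numbers of choices over a block. -/
lemma block_prod (m n : ℕ) (E : Env) (q L : ℕ) (t : Fin (m + 3) → Fin q) :
    ∏ s : Fin (m + 3) → Fin L, ncs m n E q L t s =
      (∏ j : Fin L, ∏ i : Fin L, nc n (E.win (((L * (t 0 : ℕ) : ℕ) : ℤ) + ((i : ℕ) : ℤ))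
        (((L * (t 1 : ℕ) : ℕ) : ℤ) + ((j : ℕ) : ℤ)))) ^ (L ^ (m + 1)) := by
  rw [← cube_prod m L (fun i j => nc n (E.win (((L * (t 0 : ℕ) : ℕ) : ℤ) + ((i : ℕ) : ℤ))
        (((L * (t 1 : ℕ) : ℕ) : ℤ) + ((j : ℕ) : ℤ))))]
  refine prod_congr rfl fun s _ => ?_
  unfold ncs
  push_cast
  rfl

/-- The product over all blocks. -/
lemma all_blocks (m n : ℕ) (E : Env) (q L : ℕ) :
    ∏ t : Fin (m + 3) → Fin q, ∏ s : Fin (m + 3) → Fin L, ncs m n E q L t s =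
      ∏ v : Fin (m + 3) → Fin (q * L), nc n (E.win (0 + ((v 0 : ℕ) : ℤ)) (0 + ((v 1 : ℕ) : ℤ))) := by
  rw [← Fintype.prod_prod_type']
  set e : (Fin (m + 3) → Fin q) × (Fin (m + 3) → Fin L) ≃ (Fin (m + 3) → Fin (q * L)) :=
    (Equiv.arrowProdEquivProdArrow _ _ _).symm.trans
      (Equiv.arrowCongr (Equiv.refl _) finProdFinEquiv) with he
  rw [← e.prod_comp]
  refine prod_congr rfl fun p _ => ?_
  have h : ∀ i, ((e p i : ℕ)) = L * (p.1 i : ℕ) + (p.2 i : ℕ) := by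
    intro i
    simp only [he]
    show ((finProdFinEquiv (p.1 i, p.2 i) : Fin (q * L)) : ℕ) = _
    simp [add_comm]
  unfold ncs
  rw [h, h, zero_add, zero_add]

/-- The `2`-adic estimate. -/
lemma two_adic {n : ℕ} (hn : Even n) (E : Env) (i₀ j₀ : ℤ) (L : ℕ) :
    2 ^ (∑ j ∈ range L, bads E i₀ L (j₀ + (j:ℕ))) *
      (∏ j : Fin L, ∏ i : Fin L, nc n (E.win (i₀ + ((i : ℕ) : ℤ)) (j₀ + ((j : ℕ) : ℤ)))) ∣
      (3 * n) ^ (L ^ 2) := by
  have h1 : ∏ j : Fin L, ∏ i : Fin L,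
      ((if Bad (E.win (i₀ + ((i : ℕ) : ℤ)) (j₀ + ((j : ℕ) : ℤ))) then 2 else 1) *
        nc n (E.win (i₀ + ((i : ℕ) : ℤ)) (j₀ + ((j : ℕ) : ℤ)))) ∣
      ∏ _j : Fin L, ∏ _i : Fin L, (3 * n) :=
    prod_dvd_prod_of_dvd _ _ fun j _ => prod_dvd_prod_of_dvd _ _ fun i _ => nc_dvd hn _
  have h2 : ∏ _j : Fin L, ∏ _i : Fin L, (3 * n) = (3 * n) ^ (L ^ 2) := by
    rw [prod_const, prod_const, card_univ, Fintype.card_fin, ← pow_mul, sq]
  rw [h2] at h1
  refine (dvd_of_eq ?_).trans h1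
  simp only [prod_mul_distrib]
  congr 1
  rw [← prod_pow_eq_pow_sum, ← Fin.prod_univ_eq_prod_range
    (fun j => 2 ^ bads E i₀ L (j₀ + (j:ℕ))) L]
  refine prod_congr rfl fun j _ => ?_
  rw [Fin.prod_univ_eq_prod_range
    (fun i => if Bad (E.win (i₀ + ((i : ℕ) : ℤ)) (j₀ + ((j : ℕ) : ℤ))) then 2 else 1) L]
  unfold bads
  rw [prod_ite, prod_const, prod_const_one, mul_one]

theorem no_factor (m : ℕ) {n : ℕ} (hn : 10 ^ 9 ≤ n) (hev : Even n)
    (π : XS m n → Config (m + 3) (Fin n)) : ¬ IsFactorMapOntoFullShift (XS m n) n π := by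
  intro hπ
  have hn2 : 2 ≤ n := le_trans (by norm_num) hn
  have hn0 : 0 < n := by omega
  obtain ⟨r, hr⟩ := chl hπ
  set v := padicValNat 2 n with hv
  set l : ℕ := 4 + 19 * r * (m + 3) * v with hl
  set L : ℕ := l + 2 * r with hL
  have hLpos : 0 < L := by omega
  set M : ℕ := (3 * n) ^ (L ^ (m + 3)) with hM
  have hM1 : 1 ≤ M := Nat.one_le_pow _ _ (by omega)
  set κ : ℕ := (n ^ ((m + 3) * (2 * r)) * 45) ^ (L ^ (m + 2)) with hκ
  obtain ⟨q, hq⟩ := exists_q κ M hM1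
  have hκ1 : 1 ≤ κ := Nat.one_le_pow _ _ (by positivity)
  have hq0 : 0 < q := by
    rcases Nat.eq_zero_or_pos q with h | h
    · rw [h, pow_zero, pow_zero, mul_one] at hq
      omega
    · exact h
  obtain ⟨N, hN⟩ : ∃ N, N + 2 * r = q * L := by
    refine ⟨q * L - 2 * r, Nat.sub_add_cancel ?_⟩
    calc 2 * r ≤ 1 * L := by omega
      _ ≤ q * L := Nat.mul_le_mul_right _ hq0
  have hN0 : 0 < N := by
    have : L ≤ q * L := by
      calc L = 1 * L := (one_mul _).symm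
        _ ≤ q * L := Nat.mul_le_mul_right _ hq0
    omega
  obtain ⟨E, hE⟩ := common_env hπ N r hN0 hn0
  rcases blocks hn2 hr E (q := q) (l := l) hL hN hE with ⟨t, ht⟩ | hbig
  · -- a balanced block
    rw [block_prod] at ht
    set i₀ : ℤ := ((L * (t 0 : ℕ) : ℕ) : ℤ) with hi₀
    set j₀ : ℤ := ((L * (t 1 : ℕ) : ℕ) : ℤ) with hj₀
    set B : ℕ := ∑ j ∈ range L, bads E i₀ L (j₀ + (j:ℕ)) with hB
    set Q : ℕ := ∏ j : Fin L, ∏ i : Fin L, nc n (E.win (i₀ + ((i : ℕ) : ℤ)) (j₀ + ((j : ℕ) : ℤ)))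
      with hQ
    have h1 : 2 ^ B * Q ∣ (3 * n) ^ (L ^ 2) := two_adic hev E i₀ j₀ L
    have h2 : 2 ^ (B * L ^ (m + 1)) * n ^ (l ^ (m + 3)) ∣ (3 * n) ^ (L ^ (m + 3)) := by
      calc 2 ^ (B * L ^ (m + 1)) * n ^ (l ^ (m + 3)) ∣ 2 ^ (B * L ^ (m + 1)) * Q ^ (L ^ (m + 1)) :=
            Nat.mul_dvd_mul_left _ ht
        _ = (2 ^ B * Q) ^ (L ^ (m + 1)) := by rw [mul_pow, ← pow_mul]
        _ ∣ ((3 * n) ^ (L ^ 2)) ^ (L ^ (m + 1)) := pow_dvd_pow_of_dvd h1 _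
        _ = (3 * n) ^ (L ^ (m + 3)) := by
            rw [← pow_mul, ← pow_add]
            congr 2
            omega
    have : Fact (Nat.Prime 2) := ⟨Nat.prime_two⟩
    have h3 : padicValNat 2 (2 ^ (B * L ^ (m + 1)) * n ^ (l ^ (m + 3))) ≤
        padicValNat 2 ((3 * n) ^ (L ^ (m + 3))) := by
      obtain ⟨c, hc⟩ := h2
      have hc0 : c ≠ 0 := by
        rintro rfl
        rw [mul_zero] at hc
        have : 0 < (3 * n) ^ (L ^ (m + 3)) := by positivity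
        omega
      rw [hc, padicValNat.mul (by positivity) hc0]
      exact Nat.le_add_right _ _
    rw [padicValNat.mul (by positivity) (by positivity), padicValNat.prime_pow,
      padicValNat.pow, padicValNat.pow,
      padicValNat.mul (by norm_num) (by positivity),
      padicValNat.eq_zero_of_not_dvd (by norm_num : ¬ 2 ∣ 3), zero_add, ← hv] at h3
    have h4 : L ^ (m + 3) ≤ l ^ (m + 3) + (m + 3) * (2 * r) * L ^ (m + 2) :=
      pow_add_le l (2 * r) (m + 2)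
    have h5 : B * L ^ (m + 1) ≤ ((m + 3) * (2 * r) * v * L) * L ^ (m + 1) := by
      have h6 : L ^ (m + 3) * v ≤ (l ^ (m + 3) + (m + 3) * (2 * r) * L ^ (m + 2)) * v :=
        Nat.mul_le_mul_right _ h4
      have h7 : (l ^ (m + 3) + (m + 3) * (2 * r) * L ^ (m + 2)) * v =
          l ^ (m + 3) * v + ((m + 3) * (2 * r) * v * L) * L ^ (m + 1) := by
        rw [show L ^ (m + 2) = L * L ^ (m + 1) by ring]
        ring
      omega
    have h8 : B ≤ (m + 3) * (2 * r) * v * L :=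
      Nat.le_of_mul_le_mul_right h5 (by positivity)
    have h9 := many_bads E i₀ j₀ L
    have h10 : (∑ j ∈ range L, (bads E i₀ L (j₀ + (j:ℕ)) : ℤ)) = (B : ℤ) := by
      rw [hB]; push_cast; rfl
    rw [h10] at h9
    have h11 : (B : ℤ) ≤ ((m + 3) * (2 * r) * v * L : ℕ) := by exact_mod_cast h8
    have h12 : 2 * (L:ℤ) * L ≤ (7 + 19 * ((m + 3) * (2 * r) * v)) * L := by
      push_cast at h11
      nlinarith
    have hL' : (0:ℤ) < L := by exact_mod_cast hLpos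
    have h13 : 2 * (L:ℤ) ≤ 7 + 19 * ((m + 3) * (2 * r) * v) :=
      le_of_mul_le_mul_right h12 hL'
    have h14 : (L:ℤ) = 4 + 19 * r * (m + 3) * v + 2 * r := by
      rw [hL, hl]; push_cast; ring
    rw [h14] at h13
    nlinarith
  · -- the counting case
    set a : (Fin (m + 3) → Fin q) → ℕ := fun t => ∏ s : Fin (m + 3) → Fin L, ncs m n E q L t s
      with ha
    have ha1 : ∀ t, 1 ≤ a t := fun t => Nat.one_le_iff_ne_zero.mpr
      (prod_ne_zero_iff.mpr fun s _ => (nc_pos hn2 _).ne')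
    have haM : ∀ t, a t ≤ M := by
      intro t
      calc a t ≤ ∏ _s : Fin (m + 3) → Fin L, (3 * n) :=
            prod_le_prod' fun s _ => nc_le (by omega) _
        _ = M := by simp [hM]
    have h1 := prod_sub_one a M ha1 haM
    have h2 : Fintype.card (Fin (m + 3) → Fin q) = q ^ (m + 3) := by simp
    rw [h2] at h1
    have h3 : ∏ t, a t ≤ n ^ ((q * L) ^ (m + 3)) * 45 ^ ((q * L) ^ (m + 2)) := by
      rw [ha, all_blocks]
      have := cube_upper (m := m) hn E 0 0 (q * L)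
      exact_mod_cast this
    have h4 : n ^ (N ^ (m + 3)) * M ^ (q ^ (m + 3)) ≤
        n ^ ((q * L) ^ (m + 3)) * 45 ^ ((q * L) ^ (m + 2)) * (M - 1) ^ (q ^ (m + 3)) := by
      calc n ^ (N ^ (m + 3)) * M ^ (q ^ (m + 3)) ≤ (∏ t, (a t - 1)) * M ^ (q ^ (m + 3)) :=
            Nat.mul_le_mul_right _ hbig
        _ ≤ (∏ t, a t) * (M - 1) ^ (q ^ (m + 3)) := h1
        _ ≤ _ := Nat.mul_le_mul_right _ h3
    have h5 : (q * L) ^ (m + 3) ≤ N ^ (m + 3) + (m + 3) * (2 * r) * (q * L) ^ (m + 2) := by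
      have := pow_add_le N (2 * r) (m + 2)
      rw [hN] at this
      exact this
    have h6 : n ^ ((q * L) ^ (m + 3)) ≤
        n ^ (N ^ (m + 3)) * (n ^ ((m + 3) * (2 * r))) ^ ((q * L) ^ (m + 2)) := by
      rw [← pow_mul, ← pow_add]
      exact Nat.pow_le_pow_right hn0 h5
    have h7 : n ^ (N ^ (m + 3)) * M ^ (q ^ (m + 3)) ≤ n ^ (N ^ (m + 3)) *
        ((n ^ ((m + 3) * (2 * r)) * 45) ^ ((q * L) ^ (m + 2)) * (M - 1) ^ (q ^ (m + 3))) := by
      refine h4.trans ?_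
      calc n ^ ((q * L) ^ (m + 3)) * 45 ^ ((q * L) ^ (m + 2)) * (M - 1) ^ (q ^ (m + 3))
          ≤ (n ^ (N ^ (m + 3)) * (n ^ ((m + 3) * (2 * r))) ^ ((q * L) ^ (m + 2))) *
            45 ^ ((q * L) ^ (m + 2)) * (M - 1) ^ (q ^ (m + 3)) := by gcongr
        _ = _ := by rw [mul_pow]; ring
    have h8 : M ^ (q ^ (m + 3)) ≤
        (n ^ ((m + 3) * (2 * r)) * 45) ^ ((q * L) ^ (m + 2)) * (M - 1) ^ (q ^ (m + 3)) :=
      Nat.le_of_mul_le_mul_left h7 (by positivity)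
    have h9 : (M ^ q) ^ (q ^ (m + 2)) ≤ (κ * (M - 1) ^ q) ^ (q ^ (m + 2)) := by
      calc (M ^ q) ^ (q ^ (m + 2)) = M ^ (q ^ (m + 3)) := by
            rw [← pow_mul]; congr 1; ring
        _ ≤ _ := h8
        _ = _ := by
            rw [hκ, mul_pow (_ ^ (L ^ (m + 2))), ← pow_mul, ← pow_mul]
            congr 2
            · rw [mul_pow]; ring
            · ring
    have h10 : (κ * (M - 1) ^ q) ^ (q ^ (m + 2)) < (M ^ q) ^ (q ^ (m + 2)) :=
      Nat.pow_lt_pow_left hq (by positivity)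
    omega

end Pool.Agent.Work.MP_6eef91_an
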